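import Mathlib
import Pool.Agent.Helper93.Sph.R
import Pool.Agent.Helper93.Sph.W1

/-! Rademacher–Menshov majorant for sequences and for ball partial sums. -/

set_option autoImplicit false

open MeasureTheory Real Set Filter Topology
open scoped ENNReal NNReal RealInnerProductSpace

namespace Pool.Agent.E8helper19.SL

open Pool.Agent.Helper93.Sph

lemma en_sq (z : ℂ) : ‖z‖ₑ ^ 2 = ENNReal.ofReal (‖z‖ ^ 2) := by
  rw [← ofReal_norm, ENNReal.ofReal_pow (norm_nonneg _)]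

lemma en_add3 (a b c : ℂ) : ‖a + b + c‖ₑ ^ 2 ≤ 3 * (‖a‖ₑ ^ 2 + ‖b‖ₑ ^ 2 + ‖c‖ₑ ^ 2) := by
  rw [en_sq, en_sq, en_sq, en_sq, ← ENNReal.ofReal_add (by positivity) (by positivity),
    ← ENNReal.ofReal_add (by positivity) (by positivity),
    show (3 : ℝ≥0∞) = ENNReal.ofReal 3 by simp, ← ENNReal.ofReal_mul (by norm_num)]
  refine ENNReal.ofReal_le_ofReal ?_
  have h : ‖a + b + c‖ ≤ ‖a‖ + ‖b‖ + ‖c‖ := norm_add₃_le
  have h2 := pow_le_pow_left₀ (norm_nonneg _) h 2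
  nlinarith [sq_nonneg (‖a‖ - ‖b‖), sq_nonneg (‖a‖ - ‖c‖), sq_nonneg (‖b‖ - ‖c‖)]

lemma en_sum_sq (J : ℕ) (X : ℕ → ℂ) :
    ‖∑ i ∈ Finset.range J, X i‖ₑ ^ 2 ≤ ∑ i ∈ Finset.range J, (J : ℝ≥0∞) * ‖X i‖ₑ ^ 2 := by
  have h1 : ‖∑ i ∈ Finset.range J, X i‖ ^ 2 ≤ ∑ i ∈ Finset.range J, (J : ℝ) * ‖X i‖ ^ 2 := by
    have h2 := sq_sum_le_card_mul_sum_sq (s := Finset.range J) (f := fun i => ‖X i‖)
    rw [Finset.card_range] at h2
    refine (pow_le_pow_left₀ (norm_nonneg _) (norm_sum_le _ _) 2).trans (h2.trans (le_of_eq ?_))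
    rw [Finset.mul_sum]
  rw [en_sq]
  refine (ENNReal.ofReal_le_ofReal h1).trans (le_of_eq ?_)
  rw [ENNReal.ofReal_sum_of_nonneg (fun i _ => by positivity)]
  refine Finset.sum_congr rfl fun i _ => ?_
  rw [ENNReal.ofReal_mul (by positivity), en_sq]
  simp

lemma inv_sq_sum (J : ℕ) : ∑ i ∈ Finset.range J, (1 / ((i : ℝ) + 1)) ^ 2 ≤ 2 := by
  have h : ∀ J : ℕ, ∑ i ∈ Finset.range (J + 1), (1 / ((i : ℝ) + 1)) ^ 2 ≤ 2 - 1 / ((J : ℝ) + 1) := by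
    intro J
    induction J with
    | zero => norm_num
    | succ J ih =>
      rw [Finset.sum_range_succ]
      have h1 : (1 / (((J + 1 : ℕ) : ℝ) + 1)) ^ 2 ≤ 1 / ((J : ℝ) + 1) - 1 / (((J + 1 : ℕ) : ℝ) + 1) := by
        push_cast
        rw [div_sub_div _ _ (by positivity) (by positivity), div_pow, div_le_div_iff₀ (by positivity)
          (by positivity)]
        have : (0 : ℝ) ≤ J := Nat.cast_nonneg J
        nlinarith
      linarith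
  cases J with
  | zero => simp
  | succ J =>
    have := h J
    have h2 : 0 ≤ 1 / ((J : ℝ) + 1) := by positivity
    linarith

lemma en_lac (J : ℕ) (X : ℕ → ℂ) :
    ‖∑ i ∈ Finset.range J, X i‖ₑ ^ 2 ≤
      2 * ∑ i ∈ Finset.range J, ((i : ℝ≥0∞) + 1) ^ 2 * ‖X i‖ₑ ^ 2 := by
  have h1 : ‖∑ i ∈ Finset.range J, X i‖ ^ 2 ≤
      2 * ∑ i ∈ Finset.range J, ((i : ℝ) + 1) ^ 2 * ‖X i‖ ^ 2 := by
    have h2 := Finset.sum_mul_sq_le_sq_mul_sq (Finset.range J) (fun i : ℕ => 1 / ((i : ℝ) + 1))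
      (fun i : ℕ => ((i : ℝ) + 1) * ‖X i‖)
    have h3 : ∑ i ∈ Finset.range J, 1 / ((i : ℝ) + 1) * (((i : ℝ) + 1) * ‖X i‖) =
        ∑ i ∈ Finset.range J, ‖X i‖ := by
      refine Finset.sum_congr rfl fun i _ => ?_
      have : ((i : ℝ) + 1) ≠ 0 := by positivity
      field_simp
    rw [h3] at h2
    refine (pow_le_pow_left₀ (norm_nonneg _) (norm_sum_le _ _) 2).trans (h2.trans ?_)
    have h4 : ∑ i ∈ Finset.range J, (((i : ℝ) + 1) * ‖X i‖) ^ 2 =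
        ∑ i ∈ Finset.range J, ((i : ℝ) + 1) ^ 2 * ‖X i‖ ^ 2 :=
      Finset.sum_congr rfl fun i _ => by ring
    rw [h4]
    exact mul_le_mul_of_nonneg_right (inv_sq_sum J) (Finset.sum_nonneg fun i _ => by positivity)
  rw [en_sq]
  refine (ENNReal.ofReal_le_ofReal h1).trans (le_of_eq ?_)
  rw [ENNReal.ofReal_mul (by norm_num), ENNReal.ofReal_sum_of_nonneg (fun i _ => by positivity)]
  congr 1
  · simp
  refine Finset.sum_congr rfl fun i _ => ?_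
  rw [ENNReal.ofReal_mul (by positivity), en_sq, ENNReal.ofReal_pow (by positivity),
    ENNReal.ofReal_add (by positivity) (by norm_num)]
  simp

/-- lacunary part -/
noncomputable def Lq (s : ℕ → ℂ) : ℝ≥0∞ :=
  ∑' i : ℕ, ((i : ℝ≥0∞) + 1) ^ 2 * ‖s (2 ^ (i + 1)) - s (2 ^ i)‖ₑ ^ 2

/-- dyadic part -/
noncomputable def Yq (s : ℕ → ℂ) : ℝ≥0∞ :=
  ∑' i : ℕ, ∑' c : ℕ, (Nat.log 2 ((c + 1) * 2 ^ i) : ℝ≥0∞) *
    ‖s ((c + 2) * 2 ^ i) - s ((c + 1) * 2 ^ i)‖ₑ ^ 2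

lemma lac_part (s : ℕ → ℂ) (J : ℕ) : ‖s (2 ^ J) - s 1‖ₑ ^ 2 ≤ 2 * Lq s := by
  have h1 : s (2 ^ J) - s 1 = ∑ i ∈ Finset.range J, (s (2 ^ (i + 1)) - s (2 ^ i)) := by
    rw [Finset.sum_range_sub (fun i => s (2 ^ i))]; simp
  rw [h1]
  refine (en_lac J _).trans (mul_le_mul_right ?_ _)
  exact ENNReal.sum_le_tsum _

lemma dy_part (s : ℕ → ℂ) {m : ℕ} (hm : m ≠ 0) :
    ‖s m - s (2 ^ Nat.log 2 m)‖ₑ ^ 2 ≤ Yq s := by
  set J := Nat.log 2 m with hJ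
  have hJ1 : 2 ^ J ≤ m := Nat.pow_log_le_self 2 hm
  have hJ2 : m < 2 ^ (J + 1) := Nat.lt_pow_succ_log_self (by norm_num) m
  have hmJ : m / 2 ^ J = 1 := by
    rw [Nat.div_eq_iff (by positivity)]
    constructor
    · rw [one_mul]; exact hJ1
    · have : 0 < 2 ^ J := by positivity
      rw [pow_succ] at hJ2; omega
  have h1 : s m - s (2 ^ J) = ∑ i ∈ Finset.range J,
      (s (m / 2 ^ i * 2 ^ i) - s (m / 2 ^ (i + 1) * 2 ^ (i + 1))) := by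
    rw [Finset.sum_range_sub' (fun i => s (m / 2 ^ i * 2 ^ i))]
    simp only [pow_zero, Nat.div_one, mul_one, hmJ, one_mul]
  rw [h1]
  refine (en_sum_sq J _).trans ?_
  have h2 : ∀ i ∈ Finset.range J, (J : ℝ≥0∞) *
      ‖s (m / 2 ^ i * 2 ^ i) - s (m / 2 ^ (i + 1) * 2 ^ (i + 1))‖ₑ ^ 2 ≤
      ∑' c : ℕ, (Nat.log 2 ((c + 1) * 2 ^ i) : ℝ≥0∞) *
        ‖s ((c + 2) * 2 ^ i) - s ((c + 1) * 2 ^ i)‖ₑ ^ 2 := by
    intro i hi
    rw [Finset.mem_range] at hi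
    set b := m / 2 ^ (i + 1) with hb
    have hdiv : m / 2 ^ i / 2 = b := by rw [Nat.div_div_eq_div_mul, hb, pow_succ]
    have hb1 : 1 ≤ b := by
      rw [hb, Nat.one_le_div_iff (by positivity)]
      exact (Nat.pow_le_pow_right (by norm_num) hi).trans hJ1
    have e2 : b * 2 ^ (i + 1) = (2 * b) * 2 ^ i := by rw [pow_succ]; ring
    rcases Nat.even_or_odd' (m / 2 ^ i) with ⟨d, hd | hd⟩
    · have : d = b := by omega
      rw [hd, this, e2, sub_self]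
      simp
    · have hdb : d = b := by omega
      obtain ⟨c, hc⟩ : ∃ c, 2 * b = c + 1 := ⟨2 * b - 1, by omega⟩
      have hlog : Nat.log 2 ((c + 1) * 2 ^ i) = J := by
        rw [← hc, ← e2]
        have hle : b * 2 ^ (i + 1) ≤ m := Nat.div_mul_le_self _ _
        have hge : 2 ^ J ≤ b * 2 ^ (i + 1) := by
          obtain ⟨e, he⟩ := Nat.exists_eq_add_of_le (Nat.succ_le_iff.2 hi)
          have : 2 ^ e ≤ b := by
            rw [hb, Nat.le_div_iff_mul_le (by positivity), ← pow_add]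
            refine le_trans (le_of_eq ?_) hJ1
            rw [he]; congr 1; omega
          calc 2 ^ J = 2 ^ e * 2 ^ (i + 1) := by rw [← pow_add, he]; congr 1; omega
            _ ≤ _ := Nat.mul_le_mul_right _ this
        exact (Nat.log_eq_iff (Or.inr ⟨by norm_num, by omega⟩)).2 ⟨hge, hle.trans_lt hJ2⟩
      have hle := ENNReal.le_tsum (f := fun c : ℕ => (Nat.log 2 ((c + 1) * 2 ^ i) : ℝ≥0∞) *
        ‖s ((c + 2) * 2 ^ i) - s ((c + 1) * 2 ^ i)‖ₑ ^ 2) c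
      refine le_trans (le_of_eq ?_) hle
      rw [hlog, e2, hc, hd, hdb, hc]
  refine (Finset.sum_le_sum h2).trans ?_
  exact ENNReal.sum_le_tsum _

/-- the majorant -/
noncomputable def Mq (s : ℕ → ℂ) : ℝ≥0∞ := 3 * (‖s 1‖ₑ ^ 2 + 2 * Lq s + Yq s)

theorem seq_rm (s : ℕ → ℂ) (h0 : s 0 = 0) (m : ℕ) : ‖s m‖ₑ ^ 2 ≤ Mq s := by
  rcases eq_or_ne m 0 with rfl | hm
  · rw [h0]; simp
  have h1 : s m = s 1 + (s (2 ^ Nat.log 2 m) - s 1) + (s m - s (2 ^ Nat.log 2 m)) := by ring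
  rw [h1, Mq]
  refine (en_add3 _ _ _).trans (mul_le_mul_right ?_ _)
  exact add_le_add (add_le_add le_rfl (lac_part s _)) (dy_part s hm)

end Pool.Agent.E8helper19.SL
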