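import Mathlib
import Pool.Agent.E8helper19.SL.A

/-! Integral of the Rademacher–Menshov majorant of the ball partial sums. -/

set_option autoImplicit false

open MeasureTheory Real Set Filter Topology
open scoped ENNReal NNReal RealInnerProductSpace

namespace Pool.Agent.E8helper19.SL

open Pool.Agent.Helper93.Sph

/-- the index of the annulus of `ξ` -/
noncomputable def kk {n : ℕ} (h : ℝ) (ξ : En n) : ℕ := ⌊‖ξ‖ / h⌋₊

lemma kk_meas {n : ℕ} (h : ℝ) : Measurable (kk (n := n) h) :=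
  Nat.measurable_floor.comp (measurable_norm.div_const h)

/-- indicator of an interval of naturals -/
noncomputable def ii (a b k : ℕ) : ℝ≥0∞ := if a ≤ k ∧ k < b then 1 else 0

lemma mem_shell_iff {n : ℕ} {h : ℝ} (hh : 0 < h) (a b : ℕ) (ξ : En n) :
    ξ ∈ shell n (h * a) (h * b) ↔ a ≤ kk h ξ ∧ kk h ξ < b := by
  have h0 : 0 ≤ ‖ξ‖ / h := by positivity
  rw [kk, Nat.le_floor_iff h0, Nat.floor_lt h0, le_div_iff₀ hh, div_lt_iff₀ hh, shell,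
    mem_ofPred_eq, mul_comm h, mul_comm h]

lemma incr_l2 {m : ℕ} {F : En (m + 1) → ℂ} (hF : MemLp F 2) {a b : ℝ} (h0 : 0 ≤ a) (h : a ≤ b) :
    ∫⁻ x, ‖ps F b x - ps F a x‖ₑ ^ 2 ≤ ∫⁻ ξ in shell (m + 1) a b, ‖F ξ‖ₑ ^ 2 := by
  refine le_trans (le_of_eq ?_) (piece_l2 hF (shell_meas (m + 1) a b) (shell_finite _ _ _))
  refine lintegral_congr fun x => ?_
  rw [ps_sub hF h0 h]

lemma incr_ii {m : ℕ} {F : En (m + 1) → ℂ} (hF : MemLp F 2) {h : ℝ} (hh : 0 < h) {a b : ℕ}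
    (hab : a ≤ b) :
    ∫⁻ x, ‖ps F (h * b) x - ps F (h * a) x‖ₑ ^ 2 ≤ ∫⁻ ξ, ii a b (kk h ξ) * ‖F ξ‖ₑ ^ 2 := by
  refine (incr_l2 hF (by positivity) (mul_le_mul_of_nonneg_left (by exact_mod_cast hab)
    hh.le)).trans (le_of_eq ?_)
  rw [← lintegral_indicator (shell_meas _ _ _)]
  refine lintegral_congr fun ξ => ?_
  by_cases hξ : ξ ∈ shell (m + 1) (h * a) (h * b)
  · rw [indicator_of_mem hξ, ii, if_pos ((mem_shell_iff hh a b ξ).1 hξ), one_mul]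
  · rw [indicator_of_notMem hξ, ii, if_neg (fun h' => hξ ((mem_shell_iff hh a b ξ).2 h')), zero_mul]

/-- total weight -/
noncomputable def wq (k : ℕ) : ℝ≥0∞ :=
  3 * (ii 0 1 k + 2 * (∑' i : ℕ, ((i : ℝ≥0∞) + 1) ^ 2 * ii (2 ^ i) (2 ^ (i + 1)) k) +
    ∑' i : ℕ, ∑' c : ℕ, (Nat.log 2 ((c + 1) * 2 ^ i) : ℝ≥0∞) *
      ii ((c + 1) * 2 ^ i) ((c + 2) * 2 ^ i) k)

lemma ii_le (a b k : ℕ) : ii a b k ≤ 1 := by
  rw [ii]; split_ifs <;> simp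

lemma wq_le (k : ℕ) : wq k ≤ 9 * ((Nat.log 2 k : ℝ≥0∞) + 1) ^ 2 := by
  set l := Nat.log 2 k with hl
  rcases eq_or_ne k 0 with rfl | hk
  · have h1 : ∀ i : ℕ, ii (2 ^ i) (2 ^ (i + 1)) 0 = 0 := by
      intro i
      rw [ii, if_neg]
      rintro ⟨h1, _⟩
      exact absurd h1 (not_le.2 (by positivity))
    have h2 : ∀ i c : ℕ, ii ((c + 1) * 2 ^ i) ((c + 2) * 2 ^ i) 0 = 0 := by
      intro i c
      rw [ii, if_neg]
      rintro ⟨h1, _⟩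
      exact absurd h1 (not_le.2 (by positivity))
    rw [wq]
    simp only [h1, h2, mul_zero, tsum_zero, add_zero]
    have h3 := ii_le 0 1 0
    have h4 : (1 : ℝ≥0∞) ≤ ((l : ℝ≥0∞) + 1) ^ 2 := one_le_pow₀ (by simp)
    calc 3 * ii 0 1 0 ≤ 3 * 1 := mul_le_mul_right h3 _
      _ ≤ 9 * ((l : ℝ≥0∞) + 1) ^ 2 := mul_le_mul' (by norm_num) h4
  have hJ1 : 2 ^ l ≤ k := Nat.pow_log_le_self 2 hk
  have hJ2 : k < 2 ^ (l + 1) := Nat.lt_pow_succ_log_self (by norm_num) k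
  have a1 : ii 0 1 k = 0 := by
    rw [ii, if_neg]; rintro ⟨_, h1⟩; omega
  have a2 : ∑' i : ℕ, ((i : ℝ≥0∞) + 1) ^ 2 * ii (2 ^ i) (2 ^ (i + 1)) k ≤
      ((l : ℝ≥0∞) + 1) ^ 2 := by
    rw [tsum_eq_single l]
    · calc ((l : ℝ≥0∞) + 1) ^ 2 * ii (2 ^ l) (2 ^ (l + 1)) k ≤ ((l : ℝ≥0∞) + 1) ^ 2 * 1 :=
          mul_le_mul_right (ii_le _ _ _) _
        _ = _ := mul_one _
    · intro i hi
      rw [ii, if_neg, mul_zero]
      rintro ⟨h1, h2⟩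
      have h3 : i < l + 1 := (Nat.pow_lt_pow_iff_right (by norm_num : 1 < 2)).1 (h1.trans_lt hJ2)
      have h4 : l < i + 1 := (Nat.pow_lt_pow_iff_right (by norm_num : 1 < 2)).1 (hJ1.trans_lt h2)
      omega
  have a3 : ∀ i : ℕ, ∑' c : ℕ, (Nat.log 2 ((c + 1) * 2 ^ i) : ℝ≥0∞) *
      ii ((c + 1) * 2 ^ i) ((c + 2) * 2 ^ i) k ≤ if i ∈ Finset.range (l + 1) then (l : ℝ≥0∞) else 0 := by
    intro i
    have hp : 0 < 2 ^ i := by positivity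
    by_cases hi : i ∈ Finset.range (l + 1)
    · rw [if_pos hi]
      rw [tsum_eq_single (k / 2 ^ i - 1)]
      · rw [ii]
        split_ifs with hc
        · rw [mul_one]
          exact_mod_cast Nat.log_mono_right hc.1
        · simp
      · intro c hc
        rw [ii, if_neg, mul_zero]
        rintro ⟨h1, h2⟩
        have h3 : k / 2 ^ i = c + 1 := by
          rw [Nat.div_eq_iff hp]
          constructor
          · exact h1
          · have : (c + 2) * 2 ^ i = (c + 1) * 2 ^ i + 2 ^ i := by ring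
            omega
        omega
    · rw [if_neg hi]
      rw [Finset.mem_range, not_lt] at hi
      have h4 : k < 2 ^ i := hJ2.trans_le (Nat.pow_le_pow_right (by norm_num) hi)
      have h5 : ∀ c : ℕ, ii ((c + 1) * 2 ^ i) ((c + 2) * 2 ^ i) k = 0 := by
        intro c
        rw [ii, if_neg]
        rintro ⟨h1, _⟩
        have : 1 * 2 ^ i ≤ (c + 1) * 2 ^ i := Nat.mul_le_mul_right _ (by omega)
        omega
      simp [h5]
  have a4 : ∑' i : ℕ, ∑' c : ℕ, (Nat.log 2 ((c + 1) * 2 ^ i) : ℝ≥0∞) *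
      ii ((c + 1) * 2 ^ i) ((c + 2) * 2 ^ i) k ≤ ((l : ℝ≥0∞) + 1) * l := by
    refine (ENNReal.tsum_le_tsum a3).trans ?_
    rw [tsum_eq_sum (s := Finset.range (l + 1)) (fun i hi => if_neg hi)]
    rw [Finset.sum_ite_mem, Finset.inter_self, Finset.sum_const, Finset.card_range, nsmul_eq_mul]
    push_cast
    exact le_rfl
  rw [wq, a1, zero_add]
  calc 3 * (2 * (∑' i : ℕ, ((i : ℝ≥0∞) + 1) ^ 2 * ii (2 ^ i) (2 ^ (i + 1)) k) +
    ∑' i : ℕ, ∑' c : ℕ, (Nat.log 2 ((c + 1) * 2 ^ i) : ℝ≥0∞) *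
      ii ((c + 1) * 2 ^ i) ((c + 2) * 2 ^ i) k)
      ≤ 3 * (2 * ((l : ℝ≥0∞) + 1) ^ 2 + ((l : ℝ≥0∞) + 1) * l) :=
        mul_le_mul_right (add_le_add (mul_le_mul_right a2 _) a4) _
    _ ≤ 3 * (2 * ((l : ℝ≥0∞) + 1) ^ 2 + ((l : ℝ≥0∞) + 1) * (l + 1)) := by
        gcongr
        exact le_self_add
    _ = _ := by ring

/-- sequence of ball partial sums -/
noncomputable def sq {n : ℕ} (h : ℝ) (F : En n → ℂ) (x : En n) (k : ℕ) : ℂ := ps F (h * k) x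

lemma sq_cont {m : ℕ} {F : En (m + 1) → ℂ} (hF : MemLp F 2) (h : ℝ) (k : ℕ) :
    Continuous (fun x => sq h F x k) := ps_cont_x hF _

lemma dq_meas {m : ℕ} {F : En (m + 1) → ℂ} (hF : MemLp F 2) (h : ℝ) (a b : ℕ) :
    Measurable (fun x => ‖sq h F x b - sq h F x a‖ₑ ^ 2) :=
  ((sq_cont hF h b).sub (sq_cont hF h a)).measurable.enorm.pow_const 2

lemma Mq_meas {m : ℕ} {F : En (m + 1) → ℂ} (hF : MemLp F 2) (h : ℝ) :
    Measurable (fun x => Mq (sq h F x)) := by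
  unfold Mq Lq Yq
  refine Measurable.const_mul (((sq_cont hF h 1).measurable.enorm.pow_const 2).add
    (Measurable.const_mul (Measurable.tsum fun i => ?_) _) |>.add
      (Measurable.tsum fun i => Measurable.tsum fun c => ?_)) _
  · exact (dq_meas hF h _ _).const_mul _
  · exact (dq_meas hF h _ _).const_mul _

lemma Mq_int {m : ℕ} {F : En (m + 1) → ℂ} (hF : MemLp F 2) {h : ℝ} (hh : 0 < h) :
    ∫⁻ x, Mq (sq h F x) ≤ ∫⁻ ξ, wq (kk h ξ) * ‖F ξ‖ₑ ^ 2 := by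
  have hFm : AEMeasurable (fun ξ => ‖F ξ‖ₑ ^ 2) := hF.aestronglyMeasurable.enorm.pow_const 2
  have hii : ∀ a b : ℕ, AEMeasurable (fun ξ : En (m + 1) => ii a b (kk h ξ) * ‖F ξ‖ₑ ^ 2) := by
    intro a b
    refine AEMeasurable.mul ?_ hFm
    exact ((measurable_from_nat (f := ii a b)).comp (kk_meas h)).aemeasurable
  have hd : ∀ a b : ℕ, a ≤ b → ∫⁻ x, ‖sq h F x b - sq h F x a‖ₑ ^ 2 ≤
      ∫⁻ ξ, ii a b (kk h ξ) * ‖F ξ‖ₑ ^ 2 := fun a b hab => incr_ii hF hh hab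
  have h1 : ∫⁻ x, ‖sq h F x 1‖ₑ ^ 2 ≤ ∫⁻ ξ, ii 0 1 (kk h ξ) * ‖F ξ‖ₑ ^ 2 := by
    refine le_trans (le_of_eq ?_) (hd 0 1 (by norm_num))
    refine lintegral_congr fun x => ?_
    rw [show sq h F x 0 = 0 by rw [sq, Nat.cast_zero, mul_zero, ps_zero], sub_zero]
  have h2 : ∫⁻ x, Lq (sq h F x) ≤ ∫⁻ ξ, (∑' i : ℕ, ((i : ℝ≥0∞) + 1) ^ 2 *
      ii (2 ^ i) (2 ^ (i + 1)) (kk h ξ)) * ‖F ξ‖ₑ ^ 2 := by
    unfold Lq
    rw [lintegral_tsum (fun i => ((dq_meas hF h _ _).const_mul _).aemeasurable)]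
    simp_rw [← ENNReal.tsum_mul_right]
    rw [lintegral_tsum (fun i => by
      simp_rw [mul_assoc]
      exact (hii _ _).const_mul _)]
    refine ENNReal.tsum_le_tsum fun i => ?_
    simp_rw [mul_assoc]
    rw [lintegral_const_mul' _ _ (by simp), lintegral_const_mul' _ _ (by simp)]
    exact mul_le_mul_right (hd _ _ (Nat.pow_le_pow_right (by norm_num) (by omega))) _
  have h3 : ∫⁻ x, Yq (sq h F x) ≤ ∫⁻ ξ, (∑' i : ℕ, ∑' c : ℕ, (Nat.log 2 ((c + 1) * 2 ^ i) : ℝ≥0∞) *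
      ii ((c + 1) * 2 ^ i) ((c + 2) * 2 ^ i) (kk h ξ)) * ‖F ξ‖ₑ ^ 2 := by
    unfold Yq
    rw [lintegral_tsum (fun i => (Measurable.tsum fun c =>
      ((dq_meas hF h _ _).const_mul _)).aemeasurable)]
    simp_rw [← ENNReal.tsum_mul_right]
    rw [lintegral_tsum (fun i => AEMeasurable.tsum fun c => by
      simp_rw [mul_assoc]
      exact (hii _ _).const_mul _)]
    refine ENNReal.tsum_le_tsum fun i => ?_
    rw [lintegral_tsum (fun c => ((dq_meas hF h _ _).const_mul _).aemeasurable)]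
    rw [lintegral_tsum (fun c => by
      simp_rw [mul_assoc]
      exact (hii _ _).const_mul _)]
    refine ENNReal.tsum_le_tsum fun c => ?_
    simp_rw [mul_assoc]
    rw [lintegral_const_mul' _ _ (by simp), lintegral_const_mul' _ _ (by simp)]
    exact mul_le_mul_right (hd _ _ (Nat.mul_le_mul_right _ (by omega))) _
  have hLm : Measurable (fun x => Lq (sq h F x)) := by
    unfold Lq; exact Measurable.tsum fun i => (dq_meas hF h _ _).const_mul _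
  have hQm : Measurable (fun x => Yq (sq h F x)) := by
    unfold Yq
    exact Measurable.tsum fun i => Measurable.tsum fun c => (dq_meas hF h _ _).const_mul _
  have hwm : ∀ g : ℕ → ℝ≥0∞, AEMeasurable (fun ξ : En (m + 1) => g (kk h ξ) * ‖F ξ‖ₑ ^ 2) := by
    intro g
    refine AEMeasurable.mul ?_ hFm
    exact ((measurable_from_nat (f := g)).comp (kk_meas h)).aemeasurable
  unfold Mq wq
  rw [lintegral_const_mul' _ _ (by simp), lintegral_add_right _ hQm,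
    lintegral_add_right _ (hLm.const_mul _), lintegral_const_mul' _ _ (by simp)]
  have e : ∀ ξ : En (m + 1), 3 * (ii 0 1 (kk h ξ) + 2 * (∑' i : ℕ, ((i : ℝ≥0∞) + 1) ^ 2 *
      ii (2 ^ i) (2 ^ (i + 1)) (kk h ξ)) + ∑' i : ℕ, ∑' c : ℕ,
      (Nat.log 2 ((c + 1) * 2 ^ i) : ℝ≥0∞) * ii ((c + 1) * 2 ^ i) ((c + 2) * 2 ^ i) (kk h ξ)) *
      ‖F ξ‖ₑ ^ 2 = 3 * (ii 0 1 (kk h ξ) * ‖F ξ‖ₑ ^ 2 + 2 * ((∑' i : ℕ, ((i : ℝ≥0∞) + 1) ^ 2 *
      ii (2 ^ i) (2 ^ (i + 1)) (kk h ξ)) * ‖F ξ‖ₑ ^ 2) + (∑' i : ℕ, ∑' c : ℕ,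
      (Nat.log 2 ((c + 1) * 2 ^ i) : ℝ≥0∞) * ii ((c + 1) * 2 ^ i) ((c + 2) * 2 ^ i) (kk h ξ)) *
      ‖F ξ‖ₑ ^ 2) := fun ξ => by ring
  simp_rw [e]
  have m2 := hwm (fun k => ∑' i : ℕ, ((i : ℝ≥0∞) + 1) ^ 2 * ii (2 ^ i) (2 ^ (i + 1)) k)
  have m3 := hwm (fun k => ∑' i : ℕ, ∑' c : ℕ,
      (Nat.log 2 ((c + 1) * 2 ^ i) : ℝ≥0∞) * ii ((c + 1) * 2 ^ i) ((c + 2) * 2 ^ i) k)
  rw [lintegral_const_mul' _ _ (by simp), lintegral_add_right' _ m3,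
    lintegral_add_right' _ (m2.const_mul _), lintegral_const_mul' _ _ (by simp)]
  exact mul_le_mul_right (add_le_add (add_le_add h1 (mul_le_mul_right h2 _)) h3) _

theorem rm_int {m : ℕ} {F : En (m + 1) → ℂ} (hF : MemLp F 2) {h : ℝ} (hh : 0 < h) :
    ∫⁻ x, Mq (sq h F x) ≤ ∫⁻ ξ, 9 * ((Nat.log 2 (kk h ξ) : ℝ≥0∞) + 1) ^ 2 * ‖F ξ‖ₑ ^ 2 :=
  (Mq_int hF hh).trans (lintegral_mono fun _ => mul_le_mul_left (wq_le _) _)

theorem rm_le {m : ℕ} (F : En (m + 1) → ℂ) (h : ℝ) (x : En (m + 1)) (k : ℕ) :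
    ‖ps F (h * k) x‖ₑ ^ 2 ≤ Mq (sq h F x) :=
  seq_rm (sq h F x) (by rw [sq, Nat.cast_zero, mul_zero, ps_zero]) k

end Pool.Agent.E8helper19.SL
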