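import Mathlib
import Pool.Agent.E8helper19.SL.B

/-! Comparison of ball partial sums with cylindrical partial sums. -/

set_option autoImplicit false

open MeasureTheory Real Set Filter Topology
open scoped ENNReal NNReal RealInnerProductSpace

namespace Pool.Agent.E8helper19.SL

open Pool.Agent.Helper93.Sph

/-- orthogonal splitting of the norm -/
structure Split (n : ℕ) where
  /-- length of the first component -/
  a : En n → ℝ
  /-- length of the second component -/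
  z : En n → ℝ
  ma : Measurable a
  mz : Measurable z
  a0 : ∀ ξ, 0 ≤ a ξ
  z0 : ∀ ξ, 0 ≤ z ξ
  sq : ∀ ξ, ‖ξ‖ ^ 2 = a ξ ^ 2 + z ξ ^ 2

variable {m n : ℕ}

/-- parabolic region -/
def PP (D : Split n) (h : ℝ) : Set (En n) := {ξ | D.z ξ ^ 2 ≤ h * (h + ‖ξ‖)}

/-- truncated parabolic region -/
def Cy (D : Split n) (h R : ℝ) : Set (En n) := {ξ | D.a ξ ≤ R ∧ D.z ξ ^ 2 ≤ h * (h + ‖ξ‖)}

/-- the part between the sphere and the cylinder -/
def Dm (D : Split n) (h : ℝ) (M : ℕ) : Set (En n) :=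
  {ξ | (D.a ξ ≤ h * M ∧ h * M ≤ ‖ξ‖) ∧ D.z ξ ^ 2 ≤ h * (h + ‖ξ‖)}

lemma PP_meas (D : Split n) (h : ℝ) : MeasurableSet (PP D h) :=
  measurableSet_le (D.mz.pow_const 2) (by fun_prop)

lemma Cy_meas (D : Split n) (h R : ℝ) : MeasurableSet (Cy D h R) :=
  (measurableSet_le D.ma measurable_const).inter (PP_meas D h)

lemma Dm_meas (D : Split n) (h : ℝ) (M : ℕ) : MeasurableSet (Dm D h M) :=
  ((measurableSet_le D.ma measurable_const).inter
    (measurableSet_le measurable_const measurable_norm)).inter (PP_meas D h)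

lemma a_le (D : Split n) (ξ : En n) : D.a ξ ≤ ‖ξ‖ := by
  have := D.sq ξ
  exact le_of_sq_le_sq (by nlinarith [sq_nonneg (D.z ξ)]) (norm_nonneg _)

lemma norm_le_a (D : Split n) {h : ℝ} (hh : 0 < h) {ξ : En n} (hξ : D.z ξ ^ 2 ≤ h * (h + ‖ξ‖)) :
    ‖ξ‖ ≤ D.a ξ + 2 * h := by
  by_contra hc
  push Not at hc
  have h1 := D.sq ξ
  have h2 := D.a0 ξ
  have h3 : (‖ξ‖ - D.a ξ) * (‖ξ‖ + D.a ξ) ≤ h * (h + ‖ξ‖) := by nlinarith
  have h4 : 2 * h * ‖ξ‖ ≤ (‖ξ‖ - D.a ξ) * (‖ξ‖ + D.a ξ) := by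
    have h5 : 2 * h ≤ ‖ξ‖ - D.a ξ := by linarith
    have h6 : ‖ξ‖ ≤ ‖ξ‖ + D.a ξ := by linarith
    calc 2 * h * ‖ξ‖ ≤ (‖ξ‖ - D.a ξ) * ‖ξ‖ := mul_le_mul_of_nonneg_right h5 (norm_nonneg _)
      _ ≤ _ := mul_le_mul_of_nonneg_left h6 (by linarith)
  nlinarith

lemma Cy_vol (D : Split n) {h : ℝ} (hh : 0 < h) (R : ℝ) : volume (Cy D h R) < ⊤ := by
  refine lt_of_le_of_lt (measure_mono ?_)
    (measure_closedBall_lt_top (x := (0 : En n)) (r := R + 2 * h))
  rintro ξ ⟨h1, h2⟩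
  have := norm_le_a D hh h2
  simp only [Metric.mem_closedBall, dist_zero_right]
  linarith

lemma Dm_vol (D : Split n) {h : ℝ} (hh : 0 < h) (M : ℕ) : volume (Dm D h M) < ⊤ := by
  refine lt_of_le_of_lt (measure_mono ?_) (Cy_vol D hh (h * M))
  rintro ξ ⟨h1, h2⟩
  exact ⟨h1.1, h2⟩

/-- cylindrical partial sums -/
noncomputable def cy (D : Split n) (h : ℝ) (G : En n → ℂ) (R : ℝ) (x : En n) : ℂ :=
  ∫ ξ in Cy D h R, ek x ξ * G ξ

lemma cy_eq (D : Split n) (h : ℝ) (G : En n → ℂ) (R : ℝ) (x : En n) :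
    cy D h G R x = Fi ((Cy D h R).indicator G) x := by
  rw [cy, ← integral_indicator (Cy_meas _ _ _), Fi]
  refine integral_congr_ae (Eventually.of_forall fun ξ => ?_)
  by_cases h : ξ ∈ Cy D h R
  · simp only [indicator_of_mem h]
  · simp only [indicator_of_notMem h, mul_zero]

lemma ps_split {G : En (m + 1) → ℂ} (hG : MemLp G 2) {P : Set (En (m + 1))} (hP : MeasurableSet P)
    (R : ℝ) (x : En (m + 1)) :
    ps G R x = ps (P.indicator G) R x + ps (Pᶜ.indicator G) R x := by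
  rw [ps_eq, ps_eq, ps_eq, Fi, Fi, Fi, ← integral_add (ek_int (ind_int (hG.indicator hP) _ _) x)
    (ek_int (ind_int (hG.indicator hP.compl) _ _) x)]
  refine integral_congr_ae (Eventually.of_forall fun ξ => ?_)
  simp only
  by_cases h1 : ξ ∈ shell (m + 1) 0 R
  · rw [indicator_of_mem h1, indicator_of_mem h1, indicator_of_mem h1]
    by_cases h2 : ξ ∈ P
    · have h3 : ξ ∉ Pᶜ := fun h' => h' h2
      rw [indicator_of_mem h2, indicator_of_notMem h3]; ring
    · have h3 : ξ ∈ Pᶜ := h2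
      rw [indicator_of_notMem h2, indicator_of_mem h3]; ring
  · rw [indicator_of_notMem h1, indicator_of_notMem h1, indicator_of_notMem h1]; simp

lemma cy_sub (D : Split (m + 1)) {h : ℝ} (hh : 0 < h) {G : En (m + 1) → ℂ} (hG : MemLp G 2)
    (M : ℕ) (x : En (m + 1)) :
    ps ((PP D h).indicator G) (h * M) x - cy D h G (h * M) x =
      - Fi ((Dm D h M).indicator G) x := by
  rw [ps_eq, cy_eq, Fi, Fi, Fi, ← integral_neg,
    ← integral_sub (ek_int (ind_int (hG.indicator (PP_meas D h)) _ _) x)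
    (ek_int (piece_int hG (Cy_meas _ _ _) (Cy_vol D hh _)) x)]
  refine integral_congr_ae (Eventually.of_forall fun ξ => ?_)
  simp only
  by_cases h1 : ξ ∈ PP D h
  · by_cases h2 : ‖ξ‖ < h * M
    · have a1 : ξ ∈ shell (m + 1) 0 (h * M) := ⟨norm_nonneg _, h2⟩
      have a2 : ξ ∈ Cy D h (h * M) := ⟨(a_le D ξ).trans h2.le, h1⟩
      have a3 : ξ ∉ Dm D h M := fun h' => absurd h'.1.2 (not_le.2 h2)
      rw [indicator_of_mem a1, indicator_of_mem a2, indicator_of_notMem a3, indicator_of_mem h1]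
      simp
    · have a1 : ξ ∉ shell (m + 1) 0 (h * M) := fun h' => h2 h'.2
      rw [indicator_of_notMem a1]
      by_cases h3 : D.a ξ ≤ h * M
      · have a2 : ξ ∈ Cy D h (h * M) := ⟨h3, h1⟩
        have a3 : ξ ∈ Dm D h M := ⟨⟨h3, not_lt.1 h2⟩, h1⟩
        rw [indicator_of_mem a2, indicator_of_mem a3]; simp
      · have a2 : ξ ∉ Cy D h (h * M) := fun h' => h3 h'.1
        have a3 : ξ ∉ Dm D h M := fun h' => h3 h'.1.1
        rw [indicator_of_notMem a2, indicator_of_notMem a3]; simp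
  · have a2 : ξ ∉ Cy D h (h * M) := fun h' => h1 h'.2
    have a3 : ξ ∉ Dm D h M := fun h' => h1 h'.2
    rw [indicator_of_notMem a2, indicator_of_notMem a3]
    have a4 : (shell (m + 1) 0 (h * M)).indicator ((PP D h).indicator G) ξ = 0 := by
      by_cases h4 : ξ ∈ shell (m + 1) 0 (h * M)
      · rw [indicator_of_mem h4, indicator_of_notMem h1]
      · rw [indicator_of_notMem h4]
    rw [a4]; simp

/-- the square function of the differences -/
noncomputable def Dq (D : Split n) (h : ℝ) (G : En n → ℂ) (x : En n) : ℝ≥0∞ :=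
  ∑' M : ℕ, ‖Fi ((Dm D h M).indicator G) x‖ₑ ^ 2

lemma Dq_term_meas (D : Split n) {h : ℝ} (hh : 0 < h) {G : En n → ℂ} (hG : MemLp G 2) (M : ℕ) :
    Measurable (fun x => ‖Fi ((Dm D h M).indicator G) x‖ₑ ^ 2) :=
  (Fi_cont (piece_int hG (Dm_meas D h M) (Dm_vol D hh M))).measurable.enorm.pow_const 2

lemma Dq_meas (D : Split n) {h : ℝ} (hh : 0 < h) {G : En n → ℂ} (hG : MemLp G 2) :
    Measurable (Dq D h G) :=
  Measurable.tsum fun M => Dq_term_meas D hh hG M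

lemma Dm_count (D : Split n) {h : ℝ} (hh : 0 < h) (ξ : En n) :
    ∑' M : ℕ, (Dm D h M).indicator (1 : En n → ℝ≥0∞) ξ ≤
      3 * (PP D h).indicator (1 : En n → ℝ≥0∞) ξ := by
  by_cases h1 : ξ ∈ PP D h
  · rw [indicator_of_mem h1, Pi.one_apply, mul_one]
    set c := ⌈D.a ξ / h⌉₊ with hc
    have h2 : ∀ M : ℕ, M ∉ Finset.Icc c (c + 2) → (Dm D h M).indicator (1 : En n → ℝ≥0∞) ξ = 0 := by
      intro M hM
      refine indicator_of_notMem (fun h' => hM ?_) _
      obtain ⟨⟨b1, b2⟩, b3⟩ := h'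
      rw [Finset.mem_Icc]
      constructor
      · rw [hc, Nat.ceil_le, div_le_iff₀ hh]; linarith
      · have b4 := norm_le_a D hh b3
        have b5 : D.a ξ / h ≤ c := Nat.le_ceil _
        rw [div_le_iff₀ hh] at b5
        have b6 : h * (M : ℝ) ≤ h * (c + 2) := by linarith
        have b7 := le_of_mul_le_mul_left b6 hh
        exact_mod_cast b7
    rw [tsum_eq_sum h2]
    have h3 : ∀ M ∈ Finset.Icc c (c + 2), (Dm D h M).indicator (1 : En n → ℝ≥0∞) ξ ≤ 1 := by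
      intro M _
      exact indicator_le_self' (fun _ _ => zero_le) ξ
    refine (Finset.sum_le_sum h3).trans ?_
    rw [Finset.sum_const, Nat.card_Icc, show c + 2 + 1 - c = 3 by omega]
    simp
  · have h2 : ∀ M : ℕ, (Dm D h M).indicator (1 : En n → ℝ≥0∞) ξ = 0 := fun M =>
      indicator_of_notMem (fun h' => h1 h'.2) _
    simp [h2]

lemma Dq_int (D : Split n) {h : ℝ} (hh : 0 < h) {G : En n → ℂ} (hG : MemLp G 2) :
    ∫⁻ x, Dq D h G x ≤ 3 * ∫⁻ ξ, (PP D h).indicator (1 : En n → ℝ≥0∞) ξ * ‖G ξ‖ₑ ^ 2 := by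
  have hGm : AEMeasurable (fun ξ => ‖G ξ‖ₑ ^ 2) := hG.aestronglyMeasurable.enorm.pow_const 2
  unfold Dq
  rw [lintegral_tsum (fun M => (Dq_term_meas D hh hG M).aemeasurable)]
  have h1 : ∀ M : ℕ, ∫⁻ x, ‖Fi ((Dm D h M).indicator G) x‖ₑ ^ 2 ≤
      ∫⁻ ξ, (Dm D h M).indicator (1 : En n → ℝ≥0∞) ξ * ‖G ξ‖ₑ ^ 2 := by
    intro M
    refine (piece_l2 hG (Dm_meas D h M) (Dm_vol D hh M)).trans (le_of_eq ?_)
    rw [← lintegral_indicator (Dm_meas D h M)]
    refine lintegral_congr fun ξ => ?_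
    by_cases hξ : ξ ∈ Dm D h M
    · rw [indicator_of_mem hξ, indicator_of_mem hξ]; simp
    · rw [indicator_of_notMem hξ, indicator_of_notMem hξ]; simp
  refine (ENNReal.tsum_le_tsum h1).trans ?_
  have hm : ∀ M : ℕ, AEMeasurable (fun ξ =>
      (Dm D h M).indicator (1 : En n → ℝ≥0∞) ξ * ‖G ξ‖ₑ ^ 2) := fun M =>
    (measurable_one.indicator (Dm_meas D h M)).aemeasurable.mul hGm
  rw [← lintegral_tsum hm, ← lintegral_const_mul' _ _ (by simp)]
  refine lintegral_mono fun ξ => ?_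
  simp only
  rw [ENNReal.tsum_mul_right, ← mul_assoc]
  exact mul_le_mul_left (Dm_count D hh ξ) _

/-- the majorant of the difference -/
noncomputable def NN (D : Split n) (h : ℝ) (G : En n → ℂ) (x : En n) : ℝ≥0∞ :=
  3 * (ENNReal.ofReal h * energy G x + Mq (sq h ((PP D h)ᶜ.indicator G) x) + Dq D h G x)

lemma NN_meas (D : Split (m + 1)) {h : ℝ} (hh : 0 < h) {G : En (m + 1) → ℂ} (hG : MemLp G 2) :
    Measurable (NN D h G) :=
  ((((energy_meas hG).const_mul _).add (Mq_meas (hG.indicator (PP_meas D h).compl) h)).add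
    (Dq_meas D hh hG)).const_mul _

/-- **pointwise comparison** -/
theorem NN_le (D : Split (m + 1)) {h : ℝ} (hh : 0 < h) {G : En (m + 1) → ℂ} (hG : MemLp G 2)
    (x : En (m + 1)) {R : ℝ} (hR : 0 ≤ R) :
    ‖ps G R x - cy D h G (h * (⌊R / h⌋₊ : ℕ)) x‖ₑ ^ 2 ≤ NN D h G x := by
  set M := ⌊R / h⌋₊ with hM
  have a1 : (M : ℝ) ≤ R / h := Nat.floor_le (by positivity)
  have a2 : R / h < (M : ℝ) + 1 := Nat.lt_floor_add_one _
  rw [le_div_iff₀ hh] at a1
  rw [div_lt_iff₀ hh] at a2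
  have b1 : h * M ≤ R := by linarith
  have e : ps G R x - cy D h G (h * (M : ℕ)) x = (ps G R x - ps G (h * M) x) +
      ps ((PP D h)ᶜ.indicator G) (h * M) x + (- Fi ((Dm D h M).indicator G) x) := by
    rw [← cy_sub D hh hG M x, ps_split hG (PP_meas D h) (h * M) x]; ring
  rw [e, NN]
  refine (en_add3 _ _ _).trans (mul_le_mul_right ?_ _)
  refine add_le_add (add_le_add ?_ ?_) ?_
  · refine (sub_le_energy hG x (by positivity) b1).trans ?_
    exact mul_le_mul_left (ENNReal.ofReal_le_ofReal (by linarith)) _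
  · exact rm_le _ h x M
  · rw [enorm_neg]
    exact ENNReal.le_tsum (f := fun M : ℕ => ‖Fi ((Dm D h M).indicator G) x‖ₑ ^ 2) M

/-- the weight -/
noncomputable def wt (D : Split n) (h : ℝ) (ξ : En n) : ℝ≥0∞ :=
  open Classical in
  if D.z ξ ^ 2 ≤ h * (h + ‖ξ‖) then 1 else ENNReal.ofReal (Real.log (2 + D.z ξ / h) ^ 2)

lemma wt_in (D : Split n) {h : ℝ} {ξ : En n} (hξ : D.z ξ ^ 2 ≤ h * (h + ‖ξ‖)) :
    wt D h ξ = 1 := by rw [wt, if_pos hξ]

lemma wt_out (D : Split n) {h : ℝ} {ξ : En n} (hξ : ¬ D.z ξ ^ 2 ≤ h * (h + ‖ξ‖)) :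
    wt D h ξ = ENNReal.ofReal (Real.log (2 + D.z ξ / h) ^ 2) := by rw [wt, if_neg hξ]

lemma z_big (D : Split n) {h : ℝ} (hh : 0 < h) {ξ : En n} (hξ : ¬ D.z ξ ^ 2 ≤ h * (h + ‖ξ‖)) :
    1 + ‖ξ‖ / h ≤ (D.z ξ / h) ^ 2 := by
  push Not at hξ
  rw [div_pow, le_div_iff₀ (by positivity)]
  have : (1 + ‖ξ‖ / h) * h ^ 2 = h * (h + ‖ξ‖) := by field_simp
  linarith

lemma log_bound (D : Split n) {h : ℝ} (hh : 0 < h) {ξ : En n}
    (hξ : ¬ D.z ξ ^ 2 ≤ h * (h + ‖ξ‖)) :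
    ((Nat.log 2 (kk h ξ) : ℕ) : ℝ) + 1 ≤ 6 * Real.log (2 + D.z ξ / h) := by
  set t := ‖ξ‖ / h with ht
  set s := D.z ξ / h with hs
  have ht0 : 0 ≤ t := by positivity
  have hs0 : 0 ≤ s := by have := D.z0 ξ; positivity
  have hb : 1 + t ≤ s ^ 2 := z_big D hh hξ
  have hl2 : 0.6931471803 < Real.log 2 := Real.log_two_gt_d9
  have h1 : Real.log (2 + t) ≤ 2 * Real.log (2 + s) := by
    rw [show (2 : ℝ) * Real.log (2 + s) = Real.log ((2 + s) ^ 2) by rw [Real.log_pow]; norm_num]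
    exact Real.log_le_log (by positivity) (by nlinarith)
  have h2 : ((Nat.log 2 (kk h ξ) : ℕ) : ℝ) + 1 ≤ 3 * Real.log (2 + t) := by
    have h3 : Real.log 2 ≤ Real.log (2 + t) := Real.log_le_log (by norm_num) (by linarith)
    rcases eq_or_ne (kk h ξ) 0 with h0 | h0
    · rw [h0]; simp; linarith
    · have h4 : 2 ^ (Nat.log 2 (kk h ξ)) ≤ kk h ξ := Nat.pow_log_le_self 2 h0
      have h5 : (kk h ξ : ℝ) ≤ t := Nat.floor_le ht0
      have h6 : ((2 : ℝ) ^ (Nat.log 2 (kk h ξ))) ≤ 2 + t := by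
        have : ((2 : ℝ) ^ (Nat.log 2 (kk h ξ))) ≤ kk h ξ := by exact_mod_cast h4
        linarith
      have h7 : (Nat.log 2 (kk h ξ) : ℝ) * Real.log 2 ≤ Real.log (2 + t) := by
        rw [← Real.log_pow]
        exact Real.log_le_log (by positivity) h6
      have h8 : (Nat.log 2 (kk h ξ) : ℝ) * 0.6931471803 ≤ Real.log (2 + t) := by
        refine le_trans ?_ h7
        exact mul_le_mul_of_nonneg_left hl2.le (Nat.cast_nonneg _)
      have h9 : (0 : ℝ) ≤ (Nat.log 2 (kk h ξ) : ℝ) := Nat.cast_nonneg _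
      have h10 : (1 : ℝ) * 0.6931471803 ≤ Real.log (2 + t) := by linarith
      nlinarith
  linarith

lemma w_rm (D : Split n) {h : ℝ} (hh : 0 < h) {ξ : En n}
    (hξ : ¬ D.z ξ ^ 2 ≤ h * (h + ‖ξ‖)) :
    9 * ((Nat.log 2 (kk h ξ) : ℝ≥0∞) + 1) ^ 2 ≤ 324 * wt D h ξ := by
  rw [wt_out D hξ]
  have h1 := log_bound D hh hξ
  have h2 : (((Nat.log 2 (kk h ξ) : ℕ) : ℝ) + 1) ^ 2 ≤ 36 * Real.log (2 + D.z ξ / h) ^ 2 := by
    have := pow_le_pow_left₀ (by positivity) h1 2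
    nlinarith
  have h3 := ENNReal.ofReal_le_ofReal h2
  rw [ENNReal.ofReal_mul (by norm_num), ENNReal.ofReal_pow (by positivity),
    ENNReal.ofReal_add (by positivity) (by norm_num), ENNReal.ofReal_natCast, ENNReal.ofReal_one]
    at h3
  calc 9 * ((Nat.log 2 (kk h ξ) : ℝ≥0∞) + 1) ^ 2 ≤
        9 * (ENNReal.ofReal 36 * ENNReal.ofReal (Real.log (2 + D.z ξ / h) ^ 2)) :=
        mul_le_mul_right h3 _
    _ = _ := by
        rw [← mul_assoc]
        congr 1
        rw [show (9 : ℝ≥0∞) = ENNReal.ofReal 9 by simp, ← ENNReal.ofReal_mul (by norm_num)]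
        norm_num

lemma one_le_wt (D : Split n) {h : ℝ} (hh : 0 < h) (ξ : En n) : 1 ≤ wt D h ξ := by
  by_cases hξ : D.z ξ ^ 2 ≤ h * (h + ‖ξ‖)
  · rw [wt_in D hξ]
  · rw [wt_out D hξ]
    have hb := z_big D hh hξ
    have hs0 : 0 ≤ D.z ξ / h := by have := D.z0 ξ; positivity
    have ht0 : 0 ≤ ‖ξ‖ / h := by positivity
    have hs1 : 1 ≤ D.z ξ / h := by
      by_contra hc
      push Not at hc
      nlinarith
    have h1 : 1 ≤ Real.log (2 + D.z ξ / h) := by
      rw [Real.le_log_iff_exp_le (by positivity)]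
      have := Real.exp_one_lt_d9
      linarith
    rw [ENNReal.one_le_ofReal]
    nlinarith

/-- weighted norm -/
noncomputable def WW (D : Split n) (h : ℝ) (G : En n → ℂ) : ℝ≥0∞ := ∫⁻ ξ, wt D h ξ * ‖G ξ‖ₑ ^ 2

/-- **integral of the majorant** -/
theorem NN_int (D : Split (m + 1)) {h : ℝ} (hh : 0 < h) {G : En (m + 1) → ℂ} (hG : MemLp G 2)
    (x₀ : En (m + 1)) {ρ : ℝ} (hρ : 0 < ρ) :
    ∫⁻ x in Metric.closedBall x₀ ρ, NN D h G x ≤
      ENNReal.ofReal ((1000 * (m + 1) * √(m + 1)) * (1 + h * ρ)) * WW D h G := by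
  have hGN : MemLp ((PP D h)ᶜ.indicator G) 2 := hG.indicator (PP_meas D h).compl
  have h1 : ∫⁻ x in Metric.closedBall x₀ ρ, energy G x ≤
      ENNReal.ofReal (10 * (m + 1) * √(m + 1) * ρ) * WW D h G := by
    refine (energy_bound hG x₀ hρ).trans (mul_le_mul_right ?_ _)
    refine lintegral_mono fun ξ => ?_
    calc ‖G ξ‖ₑ ^ 2 = 1 * ‖G ξ‖ₑ ^ 2 := (one_mul _).symm
      _ ≤ _ := mul_le_mul_left (one_le_wt D hh ξ) _
  have h2 : ∫⁻ x in Metric.closedBall x₀ ρ, Mq (sq h ((PP D h)ᶜ.indicator G) x) ≤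
      324 * WW D h G := by
    refine (setLIntegral_le_lintegral _ _).trans ((rm_int hGN hh).trans ?_)
    rw [WW, ← lintegral_const_mul' _ _ (by simp)]
    refine lintegral_mono fun ξ => ?_
    by_cases hξ : D.z ξ ^ 2 ≤ h * (h + ‖ξ‖)
    · have : ξ ∉ (PP D h)ᶜ := fun h' => h' hξ
      simp only [indicator_of_notMem this]
      simp
    · have : ξ ∈ (PP D h)ᶜ := hξ
      simp only [indicator_of_mem this]
      rw [← mul_assoc]
      exact mul_le_mul_left (w_rm D hh hξ) _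
  have h3 : ∫⁻ x in Metric.closedBall x₀ ρ, Dq D h G x ≤ 3 * WW D h G := by
    refine (setLIntegral_le_lintegral _ _).trans ((Dq_int D hh hG).trans (mul_le_mul_right ?_ _))
    refine lintegral_mono fun ξ => mul_le_mul_left ?_ _
    by_cases hξ : D.z ξ ^ 2 ≤ h * (h + ‖ξ‖)
    · have : ξ ∈ PP D h := hξ
      rw [indicator_of_mem this, wt_in D hξ]; exact le_rfl
    · have : ξ ∉ PP D h := hξ
      rw [indicator_of_notMem this]; exact zero_le
  unfold NN
  rw [lintegral_const_mul' _ _ (by simp), lintegral_add_right _ (Dq_meas D hh hG),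
    lintegral_add_right _ (Mq_meas hGN h), lintegral_const_mul' _ _ ENNReal.ofReal_ne_top]
  calc 3 * (ENNReal.ofReal h * (∫⁻ x in Metric.closedBall x₀ ρ, energy G x) +
        (∫⁻ x in Metric.closedBall x₀ ρ, Mq (sq h ((PP D h)ᶜ.indicator G) x)) +
        ∫⁻ x in Metric.closedBall x₀ ρ, Dq D h G x)
      ≤ 3 * (ENNReal.ofReal h * (ENNReal.ofReal (10 * (m + 1) * √(m + 1) * ρ) * WW D h G) +
        324 * WW D h G + 3 * WW D h G) := by gcongr
    _ = ENNReal.ofReal (3 * (h * (10 * (m + 1) * √(m + 1) * ρ) + 324 + 3)) * WW D h G := by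
        rw [ENNReal.ofReal_mul (p := 3) (by norm_num),
          ENNReal.ofReal_add (p := h * (10 * (m + 1) * √(m + 1) * ρ) + 324) (by positivity)
            (by norm_num),
          ENNReal.ofReal_add (p := h * (10 * (m + 1) * √(m + 1) * ρ)) (by positivity)
            (by norm_num), ENNReal.ofReal_mul hh.le]
        have e1 : ENNReal.ofReal 3 = 3 := by simp
        have e2 : ENNReal.ofReal 324 = 324 := by simp
        rw [e1, e2]; ring
    _ ≤ _ := by
        refine mul_le_mul_left (ENNReal.ofReal_le_ofReal ?_) _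
        have hm : (1 : ℝ) ≤ (m + 1) * √(m + 1) := by
          have h4 : (1 : ℝ) ≤ m + 1 := by
            have : (0 : ℝ) ≤ m := Nat.cast_nonneg m
            linarith
          have h5 : (1 : ℝ) ≤ √(m + 1) := by rw [Real.one_le_sqrt]; exact h4
          nlinarith
        have hhr : 0 < h * ρ := by positivity
        have h6 : 1000 * (m + 1) * √(m + 1) * (1 + h * ρ) =
          1000 * ((m + 1) * √(m + 1)) + 1000 * ((m + 1) * √(m + 1)) * (h * ρ) := by ring
        have h7 : 3 * (h * (10 * (m + 1) * √(m + 1) * ρ) + 324 + 3) =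
          30 * ((m + 1) * √(m + 1)) * (h * ρ) + 981 := by ring
        rw [h6, h7]
        have h8 : 0 ≤ ((m + 1 : ℝ) * √(m + 1)) * (h * ρ) := by positivity
        nlinarith

end Pool.Agent.E8helper19.SL
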