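import Mathlib
import Pool.Agent.E8helper19.SL.C

/-! Almost everywhere convergence of the difference. -/

set_option autoImplicit false

open MeasureTheory Real Set Filter Topology
open scoped ENNReal NNReal RealInnerProductSpace

namespace Pool.Agent.E8helper19.SL

open Pool.Agent.Helper93.Sph

variable {m n : ℕ}

lemma wt_meas (D : Split n) (h : ℝ) : Measurable (wt D h) := by
  classical
  unfold wt
  refine Measurable.ite (PP_meas D h) measurable_const ?_
  refine ENNReal.measurable_ofReal.comp ?_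
  exact (Real.measurable_log.comp (measurable_const.add (D.mz.div_const h))).pow_const 2

lemma WW_tail (D : Split n) (h : ℝ) {G : En n → ℂ} (hG : MemLp G 2) (hW : WW D h G ≠ ⊤)
    {c : ℕ → ℝ} (hc : Tendsto c atTop atTop) :
    Tendsto (fun k => WW D h (tail (c k) G)) atTop (𝓝 0) := by
  have h0 : (0 : ℝ≥0∞) = ∫⁻ _ξ : En n, (0 : ℝ≥0∞) := by simp
  rw [h0]
  unfold WW
  refine tendsto_lintegral_of_dominated_convergence' (fun ξ => wt D h ξ * ‖G ξ‖ₑ ^ 2) ?_ ?_ hW ?_
  · intro k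
    exact (wt_meas D h).aemeasurable.mul
      ((tail_memLp (c k) hG).aestronglyMeasurable.enorm.pow_const 2)
  · intro k
    refine Eventually.of_forall fun ξ => mul_le_mul_right ?_ _
    simp only [tail]
    by_cases h : ξ ∈ {ξ : En n | c k ≤ ‖ξ‖}
    · rw [indicator_of_mem h]
    · rw [indicator_of_notMem h]; simp
  · refine Eventually.of_forall fun ξ => ?_
    refine tendsto_const_nhds.congr' ?_
    filter_upwards [hc.eventually_gt_atTop ‖ξ‖] with k hk
    have h : ξ ∉ {ξ : En n | c k ≤ ‖ξ‖} := not_le.2 hk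
    rw [tail, indicator_of_notMem h]; simp

lemma cy_tail (D : Split (m + 1)) {h : ℝ} (hh : 0 < h) {G : En (m + 1) → ℂ} (hG : MemLp G 2)
    {k M : ℕ} (hkM : k ≤ M) (x : En (m + 1)) :
    cy D h (tail (h * k) G) (h * M) x = cy D h G (h * M) x -
      Fi ((PP D h ∩ shell (m + 1) 0 (h * k)).indicator G) x := by
  have hv : volume (PP D h ∩ shell (m + 1) 0 (h * k)) < ⊤ :=
    lt_of_le_of_lt (measure_mono inter_subset_right) (shell_finite _ _ _)
  have hm : MeasurableSet (PP D h ∩ shell (m + 1) 0 (h * k)) :=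
    (PP_meas D h).inter (shell_meas _ _ _)
  rw [cy_eq, cy_eq, Fi, Fi, Fi, ← integral_sub
    (ek_int (piece_int hG (Cy_meas _ _ _) (Cy_vol D hh _)) x) (ek_int (piece_int hG hm hv) x)]
  refine integral_congr_ae (Eventually.of_forall fun ξ => ?_)
  simp only
  have hkM' : h * (k : ℝ) ≤ h * M := mul_le_mul_of_nonneg_left (by exact_mod_cast hkM) hh.le
  by_cases h1 : ξ ∈ PP D h
  · by_cases h2 : ‖ξ‖ < h * k
    · have a1 : ξ ∈ PP D h ∩ shell (m + 1) 0 (h * k) := ⟨h1, norm_nonneg _, h2⟩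
      have a2 : ξ ∈ Cy D h (h * M) := ⟨(a_le D ξ).trans (h2.le.trans hkM'), h1⟩
      have a3 : ξ ∉ {ξ : En (m + 1) | h * (k : ℝ) ≤ ‖ξ‖} := not_le.2 h2
      rw [indicator_of_mem a1, indicator_of_mem a2, indicator_of_mem a2, tail,
        indicator_of_notMem a3]
      simp
    · have a1 : ξ ∉ PP D h ∩ shell (m + 1) 0 (h * k) := fun h' => h2 h'.2.2
      have a3 : ξ ∈ {ξ : En (m + 1) | h * (k : ℝ) ≤ ‖ξ‖} := not_lt.1 h2
      rw [indicator_of_notMem a1, mul_zero, sub_zero]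
      by_cases h3 : ξ ∈ Cy D h (h * M)
      · rw [indicator_of_mem h3, indicator_of_mem h3, tail, indicator_of_mem a3]
      · rw [indicator_of_notMem h3, indicator_of_notMem h3]
  · have a1 : ξ ∉ PP D h ∩ shell (m + 1) 0 (h * k) := fun h' => h1 h'.1
    have a2 : ξ ∉ Cy D h (h * M) := fun h' => h1 h'.2
    rw [indicator_of_notMem a1, indicator_of_notMem a2, indicator_of_notMem a2]; simp

/-- **almost everywhere convergence of the difference** -/
theorem diff_conv (D : Split (m + 1)) {h : ℝ} (hh : 0 < h) {G : En (m + 1) → ℂ}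
    (hG : MemLp G 2) (hW : WW D h G ≠ ⊤) :
    ∀ᵐ x : En (m + 1), ∃ L : ℂ,
      Tendsto (fun R : ℝ => ps G R x - cy D h G (h * (⌊R / h⌋₊ : ℕ)) x) atTop (𝓝 L) := by
  have htend : Tendsto (fun k : ℕ => h * (k : ℝ)) atTop atTop :=
    tendsto_natCast_atTop_atTop.const_mul_atTop hh
  have key : ∀ ρ : ℕ, ∀ᵐ x ∂(volume.restrict (Metric.closedBall (0 : En (m + 1)) (ρ + 1))),
      ∃ L : ℂ, Tendsto (fun R : ℝ => ps G R x - cy D h G (h * (⌊R / h⌋₊ : ℕ)) x) atTop (𝓝 L) := by
    intro ρ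
    set B := Metric.closedBall (0 : En (m + 1)) ((ρ : ℝ) + 1) with hB
    set F : ℕ → En (m + 1) → ℝ≥0∞ := fun k x => NN D h (tail (h * (k : ℝ)) G) x with hF
    have hFm : ∀ k, Measurable (F k) := fun k => NN_meas D hh (tail_memLp _ hG)
    have hbound : ∀ k, ∫⁻ x in B, F k x ≤
        ENNReal.ofReal ((1000 * (m + 1) * √(m + 1)) * (1 + h * ((ρ : ℝ) + 1))) *
          WW D h (tail (h * (k : ℝ)) G) := fun k =>
      NN_int D hh (tail_memLp _ hG) 0 (by positivity)
    have hz : ∫⁻ x in B, ⨅ k, F k x = 0 := by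
      have h1 : ∀ k : ℕ, ∫⁻ x in B, ⨅ k, F k x ≤
          ENNReal.ofReal ((1000 * (m + 1) * √(m + 1)) * (1 + h * ((ρ : ℝ) + 1))) *
          WW D h (tail (h * (k : ℝ)) G) := fun k =>
        (lintegral_mono fun z => iInf_le _ k).trans (hbound k)
      have h2 := ENNReal.Tendsto.const_mul
        (a := ENNReal.ofReal ((1000 * (m + 1) * √(m + 1)) * (1 + h * ((ρ : ℝ) + 1))))
        (WW_tail D h hG hW htend) (Or.inr ENNReal.ofReal_ne_top)
      rw [mul_zero] at h2
      exact le_antisymm (ge_of_tendsto' h2 h1) zero_le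
    rw [lintegral_eq_zero_iff (Measurable.iInf hFm)] at hz
    filter_upwards [hz] with x hx
    simp only [Pi.zero_apply, hF] at hx
    refine conv_of_small fun δ hδ => ?_
    have h4 : (⨅ k : ℕ, NN D h (tail (h * (k : ℝ)) G) x) < ENNReal.ofReal ((δ / 2) ^ 2) := by
      rw [hx]; simpa using pow_pos (half_pos hδ) 2
    obtain ⟨k, hk⟩ := iInf_lt_iff.1 h4
    set e : ℂ := ps G (h * k) x - Fi ((PP D h ∩ shell (m + 1) 0 (h * k)).indicator G) x with he
    have h5 : ∀ R : ℝ, h * k ≤ R →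
        ‖(ps G R x - cy D h G (h * (⌊R / h⌋₊ : ℕ)) x) - e‖ ≤ δ / 2 := by
      intro R hR
      have hR0 : 0 ≤ R := le_trans (by positivity) hR
      have hkM : k ≤ ⌊R / h⌋₊ := Nat.le_floor (by rw [le_div_iff₀ hh]; linarith)
      have h6 := NN_le D hh (tail_memLp (h * (k : ℝ)) hG) x hR0
      rw [cy_tail D hh hG hkM, tail_ps hG (by positivity) hR] at h6
      have h7 := (h6.trans_lt hk).le
      rw [en_sq, ENNReal.ofReal_le_ofReal_iff (by positivity)] at h7
      have h8 := le_of_sq_le_sq h7 (half_pos hδ).le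
      refine le_trans (le_of_eq ?_) h8
      congr 1
      rw [he]; ring
    refine ⟨h * k, fun R hR => ?_⟩
    have h9 := h5 R hR
    have h10 := h5 (h * k) le_rfl
    calc ‖(ps G R x - cy D h G (h * (⌊R / h⌋₊ : ℕ)) x) -
          (ps G (h * k) x - cy D h G (h * (⌊h * (k : ℝ) / h⌋₊ : ℕ)) x)‖
        = ‖((ps G R x - cy D h G (h * (⌊R / h⌋₊ : ℕ)) x) - e) -
          ((ps G (h * k) x - cy D h G (h * (⌊h * (k : ℝ) / h⌋₊ : ℕ)) x) - e)‖ := by ring_nf
      _ ≤ δ / 2 + δ / 2 := (norm_sub_le _ _).trans (add_le_add h9 h10)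
      _ = δ := by ring
  have h1 : ∀ ρ : ℕ, ∀ᵐ x : En (m + 1), x ∈ Metric.closedBall (0 : En (m + 1)) (ρ + 1) →
      ∃ L : ℂ, Tendsto (fun R : ℝ => ps G R x - cy D h G (h * (⌊R / h⌋₊ : ℕ)) x) atTop (𝓝 L) :=
    fun ρ => (ae_restrict_iff' Metric.isClosed_closedBall.measurableSet).1 (key ρ)
  filter_upwards [ae_all_iff.2 h1] with x hx
  obtain ⟨k, hk⟩ := exists_nat_ge ‖x‖
  exact hx k (by simp; linarith)

end Pool.Agent.E8helper19.SL
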