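import Mathlib
import Pool.Agent.E8helper19.SL.D

/-! Slices parallel to a subspace: Bessel's inequality and Fubini. -/

set_option autoImplicit false

open MeasureTheory Real Set Filter Topology
open scoped ENNReal NNReal RealInnerProductSpace

namespace Pool.Agent.E8helper19.SL

open Pool.Agent.Helper93.Sph

variable {m n : ℕ}

/-- the Fourier kernel on an inner product space -/
noncomputable def eg {W : Type*} [NormedAddCommGroup W] [InnerProductSpace ℝ W] (x ξ : W) : ℂ :=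
  Complex.exp (2 * π * Complex.I * ((⟪x, ξ⟫ : ℝ) : ℂ))

section gen

variable {W : Type*} [NormedAddCommGroup W] [InnerProductSpace ℝ W]

lemma eg_norm (x ξ : W) : ‖eg x ξ‖ = 1 := by
  rw [eg, show 2 * (π : ℂ) * Complex.I * ((⟪x, ξ⟫ : ℝ) : ℂ) = ((2 * π * ⟪x, ξ⟫ : ℝ) : ℂ) * Complex.I by
    push_cast; ring]
  exact Complex.norm_exp_ofReal_mul_I _

lemma eg_cont : Continuous (fun z : W × W => eg z.1 z.2) := by
  unfold eg; fun_prop

lemma Fi_undef {n : ℕ} {F : En n → ℂ} (hF : AEStronglyMeasurable F) (hi : ¬ Integrable F)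
    (x : En n) : Fi F x = 0 := by
  rw [Fi]
  refine integral_undef fun h => hi ?_
  refine (h.norm).mono hF (Eventually.of_forall fun ξ => ?_)
  rw [norm_norm, norm_mul, ek_norm, one_mul]

variable [FiniteDimensional ℝ W] [MeasurableSpace W] [BorelSpace W]

/-- Bessel's inequality on a Euclidean space -/
lemma bessel_gen {F : W → ℂ} (hF : AEStronglyMeasurable F) :
    ∫⁻ x : W, ‖∫ ξ : W, eg x ξ * F ξ‖ₑ ^ 2 ≤ ∫⁻ ξ : W, ‖F ξ‖ₑ ^ 2 := by
  set b := stdOrthonormalBasis ℝ W with hb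
  have mp := b.measurePreserving_repr
  have mps := b.measurePreserving_repr_symm
  have emb : MeasurableEmbedding b.repr := b.repr.toHomeomorph.measurableEmbedding
  have embs : MeasurableEmbedding b.repr.symm := b.repr.symm.toHomeomorph.measurableEmbedding
  set F' : En (Module.finrank ℝ W) → ℂ := fun y => F (b.repr.symm y) with hF'
  have hF'm : AEStronglyMeasurable F' := hF.comp_measurePreserving mps
  have e1 : ∀ x : W, ∫ ξ : W, eg x ξ * F ξ = Fi F' (b.repr x) := by
    intro x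
    rw [← mps.integral_comp embs, Fi]
    refine integral_congr_ae (Eventually.of_forall fun y => ?_)
    simp only [hF']
    congr 1
    rw [eg, ek]
    congr 3
    rw [← b.repr.inner_map_map x (b.repr.symm y), LinearIsometryEquiv.apply_symm_apply]
  simp_rw [e1]
  rw [mp.lintegral_comp_emb emb (fun y => ‖Fi F' y‖ₑ ^ 2)]
  have e2 : ∫⁻ ξ : W, ‖F ξ‖ₑ ^ 2 = ∫⁻ y, ‖F' y‖ₑ ^ 2 := by
    rw [← mps.lintegral_comp_emb embs]
  rw [e2]
  by_cases hi : Integrable F'
  · exact bessel hi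
  · simp [Fi_undef hF'm hi]

end gen

/-- the splitting along a subspace -/
noncomputable def dec (V : Submodule ℝ (En n)) : En n ≃ᵐ V × Vᗮ :=
  (V.orthogonalDecomposition.toHomeomorph.toMeasurableEquiv).trans (MeasurableEquiv.toLp 2 _).symm

lemma dec_mp (V : Submodule ℝ (En n)) : MeasurePreserving (dec V) volume volume := by
  refine V.orthogonalDecomposition.measurePreserving.trans ?_
  exact WithLp.volume_preserving_ofLp _ _

lemma dec_symm (V : Submodule ℝ (En n)) (p : V × Vᗮ) :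
    (dec V).symm p = (p.1 : En n) + (p.2 : En n) := by
  simp [dec]

lemma ek_dec (V : Submodule ℝ (En n)) (p q : V × Vᗮ) :
    ek ((dec V).symm p) ((dec V).symm q) = eg p.1 q.1 * eg p.2 q.2 := by
  rw [dec_symm, dec_symm, ek, eg, eg, ← Complex.exp_add]
  congr 1
  have h1 : ⟪(p.1 : En n), (q.2 : En n)⟫ = 0 := q.2.2 _ p.1.2
  have h2 : ⟪(p.2 : En n), (q.1 : En n)⟫ = 0 := by
    rw [real_inner_comm]; exact p.2.2 _ q.1.2
  rw [inner_add_left, inner_add_right, inner_add_right, h1, h2]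
  simp only [Submodule.coe_inner]
  push_cast
  ring

/-- the split of the norm along a subspace -/
noncomputable def spV (V : Submodule ℝ (En n)) : Split n where
  a ξ := ‖V.starProjection ξ‖
  z ξ := ‖Vᗮ.starProjection ξ‖
  ma := by fun_prop
  mz := by fun_prop
  a0 _ := norm_nonneg _
  z0 _ := norm_nonneg _
  sq ξ := V.norm_sq_eq_add_norm_sq_starProjection ξ

lemma spV_a (V : Submodule ℝ (En n)) (p : V × Vᗮ) : (spV V).a ((dec V).symm p) = ‖p.1‖ := by
  change ‖V.starProjection ((dec V).symm p)‖ = _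
  rw [dec_symm, map_add, Submodule.starProjection_eq_self_iff.2 p.1.2,
    (V.starProjection_apply_eq_zero_iff).2 p.2.2, add_zero]
  rfl

/-- estimate of Q1 for the space `V`, with constant `A` -/
def MaxEst (V : Submodule ℝ (En n)) (A : ℝ≥0) : Prop :=
  ∀ H : V → ℂ, MemLp H 2 volume →
    ∫⁻ u : V, ⨆ R : ℝ, ‖∫ η in Metric.closedBall (0 : V) R, eg u η * H η‖ₑ ^ 2
      ≤ A * ∫⁻ η : V, ‖H η‖ₑ ^ 2

/-- slices -/
noncomputable def sl (V : Submodule ℝ (En n)) (g : En n → ℂ) (w : Vᗮ) (η : V) : ℂ :=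
  ∫ ζ : Vᗮ, eg w ζ * g ((dec V).symm (η, ζ))

lemma sl_sm (V : Submodule ℝ (En n)) {g : En n → ℂ} (hg : StronglyMeasurable g) :
    StronglyMeasurable (fun p : Vᗮ × V => sl V g p.1 p.2) := by
  unfold sl
  have h1 : StronglyMeasurable (fun q : (Vᗮ × V) × Vᗮ =>
      eg q.1.1 q.2 * g ((dec V).symm (q.1.2, q.2))) := by
    refine StronglyMeasurable.mul ?_ ?_
    · exact (eg_cont.comp (by fun_prop : Continuous fun q : (Vᗮ × V) × Vᗮ =>
        (q.1.1, q.2))).stronglyMeasurable
    · refine hg.comp_measurable ((dec V).symm.measurable.comp ?_)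
      fun_prop
  exact h1.integral_prod_right'

lemma sl_l2 (V : Submodule ℝ (En n)) {g : En n → ℂ} (hg : StronglyMeasurable g) :
    ∫⁻ w : Vᗮ, ∫⁻ η : V, ‖sl V g w η‖ₑ ^ 2 ≤ ∫⁻ ξ, ‖g ξ‖ₑ ^ 2 := by
  have hm : Measurable (fun p : Vᗮ × V => ‖sl V g p.1 p.2‖ₑ ^ 2) :=
    (sl_sm V hg).measurable.enorm.pow_const 2
  rw [lintegral_lintegral_swap hm.aemeasurable]
  have h1 : ∀ η : V, ∫⁻ w : Vᗮ, ‖sl V g w η‖ₑ ^ 2 ≤
      ∫⁻ ζ : Vᗮ, ‖g ((dec V).symm (η, ζ))‖ₑ ^ 2 := by
    intro η
    refine bessel_gen (F := fun ζ : Vᗮ => g ((dec V).symm (η, ζ))) ?_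
    exact (hg.comp_measurable ((dec V).symm.measurable.comp (by fun_prop))).aestronglyMeasurable
  refine (lintegral_mono h1).trans (le_of_eq ?_)
  rw [← (dec_mp V).symm.lintegral_comp_emb (dec V).symm.measurableEmbedding,
    Measure.volume_eq_prod, lintegral_prod]
  exact ((hg.comp_measurable (dec V).symm.measurable).measurable.enorm.pow_const 2).aemeasurable

end Pool.Agent.E8helper19.SL
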