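import Mathlib
import Pool.Agent.E8helper19.SL.E

/-! The maximal estimate for cylindrical sums from the one for the subspace. -/

set_option autoImplicit false

open MeasureTheory Real Set Filter Topology
open scoped ENNReal NNReal RealInnerProductSpace

namespace Pool.Agent.E8helper19.SL

open Pool.Agent.Helper93.Sph

variable {m n : ℕ}

lemma cy_slice (V : Submodule ℝ (En n)) {h : ℝ} (hh : 0 < h) {G : En n → ℂ} (hG : MemLp G 2)
    (R : ℝ) (u : V) (w : Vᗮ) :
    cy (spV V) h G R ((dec V).symm (u, w)) =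
      ∫ η in Metric.closedBall (0 : V) R, eg u η * sl V ((PP (spV V) h).indicator G) w η := by
  set g := (PP (spV V) h).indicator G with hg
  have hi : Integrable (fun ξ => ek ((dec V).symm (u, w)) ξ *
      (Cy (spV V) h R).indicator G ξ) :=
    ek_int (piece_int hG (Cy_meas _ _ _) (Cy_vol _ hh _)) _
  have hi2 : Integrable (fun p : V × Vᗮ => ek ((dec V).symm (u, w)) ((dec V).symm p) *
      (Cy (spV V) h R).indicator G ((dec V).symm p)) (volume.prod volume) :=
    ((dec_mp V).symm.integrable_comp_emb (dec V).symm.measurableEmbedding).2 hi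
  rw [cy_eq, Fi, ← (dec_mp V).symm.integral_comp (dec V).symm.measurableEmbedding,
    Measure.volume_eq_prod, integral_prod _ hi2,
    ← integral_indicator Metric.isClosed_closedBall.measurableSet]
  refine integral_congr_ae (Eventually.of_forall fun η => ?_)
  simp only
  by_cases hη : η ∈ Metric.closedBall (0 : V) R
  · rw [indicator_of_mem hη, sl, ← integral_const_mul]
    refine integral_congr_ae (Eventually.of_forall fun ζ => ?_)
    simp only
    rw [ek_dec]
    have hR : ‖η‖ ≤ R := by simpa using hη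
    by_cases h1 : (dec V).symm (η, ζ) ∈ PP (spV V) h
    · have h2 : (dec V).symm (η, ζ) ∈ Cy (spV V) h R := ⟨by rw [spV_a]; exact hR, h1⟩
      rw [hg, indicator_of_mem h1, indicator_of_mem h2]; ring
    · have h2 : (dec V).symm (η, ζ) ∉ Cy (spV V) h R := fun h' => h1 h'.2
      rw [hg, indicator_of_notMem h1, indicator_of_notMem h2]; ring
  · rw [indicator_of_notMem hη]
    have hR : ¬ ‖η‖ ≤ R := by simpa using hη
    have h3 : ∀ ζ : Vᗮ, (Cy (spV V) h R).indicator G ((dec V).symm (η, ζ)) = 0 := by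
      intro ζ
      refine indicator_of_notMem (fun h' => hR ?_) _
      have := h'.1
      rwa [spV_a] at this
    simp [h3]

lemma cy_cont (D : Split n) {h : ℝ} (hh : 0 < h) {G : En n → ℂ} (hG : MemLp G 2) (R : ℝ) :
    Continuous (cy D h G R) := by
  have : cy D h G R = Fi ((Cy D h R).indicator G) := funext fun x => cy_eq D h G R x
  rw [this]
  exact Fi_cont (piece_int hG (Cy_meas _ _ _) (Cy_vol D hh _))

/-- maximal cylindrical sum -/
noncomputable def CM (D : Split n) (h : ℝ) (G : En n → ℂ) (x : En n) : ℝ≥0∞ :=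
  ⨆ M : ℕ, ‖cy D h G (h * M) x‖ₑ ^ 2

lemma CM_meas (D : Split n) {h : ℝ} (hh : 0 < h) {G : En n → ℂ} (hG : MemLp G 2) :
    Measurable (CM D h G) :=
  Measurable.iSup fun _ => (cy_cont D hh hG _).measurable.enorm.pow_const 2

lemma cy_congr (D : Split n) (h : ℝ) {G G' : En n → ℂ} (hGG : G =ᵐ[volume] G') (R : ℝ) (x : En n) :
    cy D h G R x = cy D h G' R x := by
  rw [cy, cy]
  refine integral_congr_ae (ae_restrict_of_ae ?_)
  filter_upwards [hGG] with ξ hξ
  rw [hξ]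

theorem CM_int' (V : Submodule ℝ (En n)) {A : ℝ≥0} (hA : MaxEst V A) {h : ℝ} (hh : 0 < h)
    {G : En n → ℂ} (hG : MemLp G 2) (hGm : StronglyMeasurable G) :
    ∫⁻ x, CM (spV V) h G x ≤ A * ∫⁻ ξ, ‖(PP (spV V) h).indicator G ξ‖ₑ ^ 2 := by
  set g := (PP (spV V) h).indicator G with hg
  have hgm : StronglyMeasurable g := hGm.indicator (PP_meas _ _)
  have hgL : MemLp g 2 := hG.indicator (PP_meas _ _)
  have hsl := sl_l2 V hgm
  have hsm := sl_sm V hgm
  have hfin : ∫⁻ w : Vᗮ, ∫⁻ η : V, ‖sl V g w η‖ₑ ^ 2 ≠ ⊤ :=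
    (hsl.trans_lt (lt_top_iff_ne_top.2 (sq_fin hgL))).ne
  have hmw : Measurable (fun w : Vᗮ => ∫⁻ η : V, ‖sl V g w η‖ₑ ^ 2) :=
    (hsm.measurable.enorm.pow_const 2).lintegral_prod_right'
  have hae : ∀ᵐ w : Vᗮ, MemLp (sl V g w) 2 volume := by
    filter_upwards [ae_lt_top hmw hfin] with w hw
    refine ⟨(hsm.comp_measurable (by fun_prop : Measurable fun η : V => (w, η))
      ).aestronglyMeasurable, ?_⟩
    rw [eLpNorm_lt_top_iff_lintegral_rpow_enorm_lt_top (by norm_num) (by norm_num)]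
    simpa using hw
  have hCm : Measurable (fun p : V × Vᗮ => CM (spV V) h G ((dec V).symm p)) :=
    (CM_meas (spV V) hh hG).comp (dec V).symm.measurable
  rw [← (dec_mp V).symm.lintegral_comp_emb (dec V).symm.measurableEmbedding,
    Measure.volume_eq_prod, lintegral_prod_symm' _ hCm]
  calc ∫⁻ w : Vᗮ, ∫⁻ u : V, CM (spV V) h G ((dec V).symm (u, w))
      ≤ ∫⁻ w : Vᗮ, A * ∫⁻ η : V, ‖sl V g w η‖ₑ ^ 2 := by
        refine lintegral_mono_ae ?_
        filter_upwards [hae] with w hw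
        refine le_trans (lintegral_mono fun u => ?_) (hA _ hw)
        rw [CM]
        refine iSup_le fun M => ?_
        rw [cy_slice V hh hG]
        exact le_iSup (fun R : ℝ => ‖∫ η in Metric.closedBall (0 : V) R,
          eg u η * sl V g w η‖ₑ ^ 2) (h * M)
    _ = A * ∫⁻ w : Vᗮ, ∫⁻ η : V, ‖sl V g w η‖ₑ ^ 2 := lintegral_const_mul' _ _ (by simp)
    _ ≤ _ := mul_le_mul_right hsl _

theorem CM_int (V : Submodule ℝ (En n)) {A : ℝ≥0} (hA : MaxEst V A) {h : ℝ} (hh : 0 < h)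
    {G : En n → ℂ} (hG : MemLp G 2) :
    ∫⁻ x, CM (spV V) h G x ≤ A * WW (spV V) h G := by
  set G' := hG.aestronglyMeasurable.mk with hG'
  have hGG : G =ᵐ[volume] G' := hG.aestronglyMeasurable.ae_eq_mk
  have h1 : ∀ x, CM (spV V) h G x = CM (spV V) h G' x := by
    intro x
    rw [CM, CM]
    simp_rw [cy_congr (spV V) h hGG]
  simp_rw [h1]
  refine (CM_int' V hA hh ((memLp_congr_ae hGG).1 hG)
    hG.aestronglyMeasurable.stronglyMeasurable_mk).trans (mul_le_mul_right ?_ _)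
  rw [WW]
  refine lintegral_mono_ae ?_
  filter_upwards [hGG] with ξ hξ
  by_cases h2 : ξ ∈ PP (spV V) h
  · rw [indicator_of_mem h2, wt_in _ h2, one_mul, hξ]
  · rw [indicator_of_notMem h2]; simp

/-- **maximal estimate** -/
theorem max_est (V : Submodule ℝ (En (m + 1))) {A : ℝ≥0} (hA : MaxEst V A) {h : ℝ} (hh : 0 < h)
    {G : En (m + 1) → ℂ} (hG : MemLp G 2) (x₀ : En (m + 1)) {ρ : ℝ} (hρ : 0 < ρ) :
    ∫⁻ x in Metric.closedBall x₀ ρ, ⨆ R : ℝ, ‖ps G R x‖ₑ ^ 2 ≤
      2 * (A + ENNReal.ofReal ((1000 * (m + 1) * √(m + 1)) * (1 + h * ρ))) *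
        WW (spV V) h G := by
  have h1 : ∀ x, ⨆ R : ℝ, ‖ps G R x‖ₑ ^ 2 ≤ 2 * (CM (spV V) h G x + NN (spV V) h G x) := by
    intro x
    refine iSup_le fun R => ?_
    rcases lt_or_ge R 0 with hR | hR
    · rw [ps_neg _ hR]; simp
    · have e : ps G R x = cy (spV V) h G (h * (⌊R / h⌋₊ : ℕ)) x +
          (ps G R x - cy (spV V) h G (h * (⌊R / h⌋₊ : ℕ)) x) := by ring
      rw [e]
      refine (enorm_add_sq_le _ _).trans (mul_le_mul_right (add_le_add ?_ ?_) _)
      · exact le_iSup (fun M : ℕ => ‖cy (spV V) h G (h * M) x‖ₑ ^ 2) _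
      · exact NN_le (spV V) hh hG x hR
  refine (lintegral_mono h1).trans ?_
  rw [lintegral_const_mul' _ _ (by simp), lintegral_add_right _ (NN_meas (spV V) hh hG), mul_assoc,
    add_mul]
  refine mul_le_mul_right (add_le_add ?_ ?_) _
  · exact (setLIntegral_le_lintegral _ _).trans (CM_int V hA hh hG)
  · exact NN_int (spV V) hh hG x₀ hρ

lemma cy_conv (V : Submodule ℝ (En (m + 1))) {A : ℝ≥0} (hA : MaxEst V A) {h : ℝ} (hh : 0 < h)
    {G : En (m + 1) → ℂ} (hG : MemLp G 2) (hW : WW (spV V) h G ≠ ⊤) :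
    ∀ᵐ x : En (m + 1), ∃ L : ℂ, Tendsto (fun M : ℕ => cy (spV V) h G (h * M) x) atTop (𝓝 L) := by
  set D := spV V with hD
  have htend : Tendsto (fun k : ℕ => h * (k : ℝ)) atTop atTop :=
    tendsto_natCast_atTop_atTop.const_mul_atTop hh
  set F : ℕ → En (m + 1) → ℝ≥0∞ := fun k x => CM D h (tail (h * (k : ℝ)) G) x with hF
  have hFm : ∀ k, Measurable (F k) := fun k => CM_meas D hh (tail_memLp _ hG)
  have hz : ∫⁻ x, ⨅ k, F k x = 0 := by
    have h1 : ∀ k : ℕ, ∫⁻ x, ⨅ k, F k x ≤ A * WW D h (tail (h * (k : ℝ)) G) := fun k =>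
      (lintegral_mono fun z => iInf_le _ k).trans (CM_int V hA hh (tail_memLp _ hG))
    have h2 := ENNReal.Tendsto.const_mul (a := (A : ℝ≥0∞))
      (WW_tail D h hG hW htend) (Or.inr ENNReal.coe_ne_top)
    rw [mul_zero] at h2
    exact le_antisymm (ge_of_tendsto' h2 h1) zero_le
  rw [lintegral_eq_zero_iff (Measurable.iInf hFm)] at hz
  filter_upwards [hz] with x hx
  simp only [Pi.zero_apply, hF] at hx
  refine cauchySeq_tendsto_of_complete (Metric.cauchySeq_iff'.2 fun δ hδ => ?_)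
  have h4 : (⨅ k : ℕ, CM D h (tail (h * (k : ℝ)) G) x) < ENNReal.ofReal ((δ / 3) ^ 2) := by
    rw [hx]; simpa using pow_pos (show 0 < δ / 3 by positivity) 2
  obtain ⟨k, hk⟩ := iInf_lt_iff.1 h4
  set e : ℂ := Fi ((PP D h ∩ shell (m + 1) 0 (h * k)).indicator G) x with he
  have h5 : ∀ M : ℕ, k ≤ M → ‖cy D h G (h * M) x - e‖ ≤ δ / 3 := by
    intro M hM
    have h6 : ‖cy D h (tail (h * (k : ℝ)) G) (h * M) x‖ₑ ^ 2 ≤
        CM D h (tail (h * (k : ℝ)) G) x :=
      le_iSup (fun M : ℕ => ‖cy D h (tail (h * (k : ℝ)) G) (h * M) x‖ₑ ^ 2) M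
    rw [cy_tail D hh hG hM] at h6
    have h7 := (h6.trans_lt hk).le
    rw [en_sq, ENNReal.ofReal_le_ofReal_iff (by positivity)] at h7
    exact le_of_sq_le_sq h7 (by positivity)
  refine ⟨k, fun M hM => ?_⟩
  rw [dist_eq_norm]
  calc ‖cy D h G (h * M) x - cy D h G (h * k) x‖
      = ‖(cy D h G (h * M) x - e) - (cy D h G (h * k) x - e)‖ := by ring_nf
    _ ≤ δ / 3 + δ / 3 := (norm_sub_le _ _).trans (add_le_add (h5 M hM) (h5 k le_rfl))
    _ < δ := by linarith

/-- **almost everywhere convergence** -/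
theorem ps_conv (V : Submodule ℝ (En (m + 1))) {A : ℝ≥0} (hA : MaxEst V A) {h : ℝ} (hh : 0 < h)
    {G : En (m + 1) → ℂ} (hG : MemLp G 2) (hW : WW (spV V) h G ≠ ⊤) :
    ∀ᵐ x : En (m + 1), ∃ L : ℂ, Tendsto (fun R : ℝ => ps G R x) atTop (𝓝 L) := by
  filter_upwards [cy_conv V hA hh hG hW, diff_conv (spV V) hh hG hW] with x h1 h2
  obtain ⟨L1, h1⟩ := h1
  obtain ⟨L2, h2⟩ := h2
  have hfl : Tendsto (fun R : ℝ => ⌊R / h⌋₊) atTop atTop :=
    tendsto_nat_floor_atTop.comp (tendsto_id.atTop_div_const hh)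
  refine ⟨L2 + L1, (h2.add (h1.comp hfl)).congr fun R => ?_⟩
  simp only [Function.comp]
  ring

end Pool.Agent.E8helper19.SL
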