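import Mathlib
import Pool.Agent.E8helper19.SL.F

/-! From the estimate near the subspace back to the estimate for the subspace. -/

set_option autoImplicit false

open MeasureTheory Real Set Filter Topology
open scoped ENNReal NNReal RealInnerProductSpace

namespace Pool.Agent.E8helper19.SL

open Pool.Agent.Helper93.Sph

variable {m n k : ℕ}

section transport

variable {V : Submodule ℝ (En n)} (b : OrthonormalBasis (Fin k) ℝ V)

lemma repr_emb : MeasurableEmbedding b.repr := b.repr.toHomeomorph.measurableEmbedding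

lemma tr (H' : En k → ℂ) (R : ℝ) (u : V) :
    ∫ η in Metric.closedBall (0 : V) R, eg u η * H' (b.repr η) = ps H' R (b.repr u) := by
  have h1 : Metric.closedBall (0 : V) R = b.repr ⁻¹' (Metric.closedBall (0 : En k) R) := by
    ext η; simp
  rw [h1, ps, ← b.measurePreserving_repr.setIntegral_preimage_emb (repr_emb b)]
  refine integral_congr_ae (Eventually.of_forall fun η => ?_)
  simp only
  congr 1
  rw [eg, ek, b.repr.inner_map_map]

/-- estimate of Q1 in dimension `k` -/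
def QE (k : ℕ) (A : ℝ≥0) : Prop :=
  ∀ H : En k → ℂ, MemLp H 2 volume →
    ∫⁻ u : En k, ⨆ R : ℝ, ‖ps H R u‖ₑ ^ 2 ≤ A * ∫⁻ η, ‖H η‖ₑ ^ 2

include b in
lemma QE_MaxEst {A : ℝ≥0} (hA : QE k A) : MaxEst V A := by
  intro H hH
  set H' : En k → ℂ := fun y => H (b.repr.symm y) with hH'
  have e0 : ∀ η : V, H η = H' (b.repr η) := fun η => by simp [hH']
  have hH'L : MemLp H' 2 volume := hH.comp_measurePreserving b.measurePreserving_repr_symm
  have e1 : ∀ u : V, ⨆ R : ℝ, ‖∫ η in Metric.closedBall (0 : V) R, eg u η * H η‖ₑ ^ 2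
      = ⨆ R : ℝ, ‖ps H' R (b.repr u)‖ₑ ^ 2 := by
    intro u
    simp_rw [e0, tr b H']
  simp_rw [e1]
  rw [b.measurePreserving_repr.lintegral_comp_emb (repr_emb b)
    (fun y => ⨆ R : ℝ, ‖ps H' R y‖ₑ ^ 2)]
  refine (hA H' hH'L).trans (le_of_eq ?_)
  congr 1
  rw [← b.measurePreserving_repr.lintegral_comp_emb (repr_emb b)]
  simp_rw [e0]

end transport

/-- the tensor product test function -/
noncomputable def tG (V : Submodule ℝ (En n)) (h : ℝ) (H : V → ℂ) (ξ : En n) : ℂ :=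
  H (dec V ξ).1 * (Metric.closedBall (0 : Vᗮ) h).indicator (fun _ => (1 : ℂ)) (dec V ξ).2

lemma tG_symm (V : Submodule ℝ (En n)) (h : ℝ) (H : V → ℂ) (p : V × Vᗮ) :
    tG V h H ((dec V).symm p) =
      H p.1 * (Metric.closedBall (0 : Vᗮ) h).indicator (fun _ => (1 : ℂ)) p.2 := by
  rw [tG, MeasurableEquiv.apply_symm_apply]

lemma tG_l2 (V : Submodule ℝ (En n)) (h : ℝ) {H : V → ℂ} (hH : MemLp H 2 volume) :
    ∫⁻ ξ, ‖tG V h H ξ‖ₑ ^ 2 =
      (∫⁻ η, ‖H η‖ₑ ^ 2) * volume (Metric.closedBall (0 : Vᗮ) h) := by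
  rw [← (dec_mp V).symm.lintegral_comp_emb (dec V).symm.measurableEmbedding]
  simp_rw [tG_symm, enorm_mul, mul_pow]
  rw [Measure.volume_eq_prod, lintegral_prod_mul (f := fun η : V => ‖H η‖ₑ ^ 2)
    (g := fun ζ : Vᗮ => ‖(Metric.closedBall (0 : Vᗮ) h).indicator (fun _ => (1 : ℂ)) ζ‖ₑ ^ 2)
    (hH.aestronglyMeasurable.enorm.pow_const 2)]
  · congr 1
    rw [← setLIntegral_one, ← lintegral_indicator Metric.isClosed_closedBall.measurableSet]
    refine lintegral_congr fun ζ => ?_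
    by_cases h1 : ζ ∈ Metric.closedBall (0 : Vᗮ) h
    · rw [indicator_of_mem h1, indicator_of_mem h1]; simp
    · rw [indicator_of_notMem h1, indicator_of_notMem h1]; simp
  · have : Measurable ((Metric.closedBall (0 : Vᗮ) h).indicator (fun _ => (1 : ℂ))) :=
      measurable_const.indicator Metric.isClosed_closedBall.measurableSet
    exact (this.enorm.pow_const 2).aemeasurable

lemma tG_memLp (V : Submodule ℝ (En n)) (h : ℝ) {H : V → ℂ} (hH : MemLp H 2 volume) :
    MemLp (tG V h H) 2 volume := by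
  refine ⟨?_, ?_⟩
  · have h1 : AEStronglyMeasurable (fun p : V × Vᗮ => H p.1 *
        (Metric.closedBall (0 : Vᗮ) h).indicator (fun _ => (1 : ℂ)) p.2) (volume.prod volume) := by
      refine (hH.aestronglyMeasurable.comp_fst).mul ?_
      have : Measurable ((Metric.closedBall (0 : Vᗮ) h).indicator (fun _ => (1 : ℂ))) :=
        measurable_const.indicator Metric.isClosed_closedBall.measurableSet
      exact (this.comp measurable_snd).aestronglyMeasurable
    exact h1.comp_measurePreserving (dec_mp V)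
  · rw [eLpNorm_lt_top_iff_lintegral_rpow_enorm_lt_top (by norm_num) (by norm_num)]
    have h2 := tG_l2 V h hH
    have h3 : ∫⁻ η, ‖H η‖ₑ ^ 2 < ⊤ := by
      have := hH.eLpNorm_lt_top
      rw [eLpNorm_lt_top_iff_lintegral_rpow_enorm_lt_top (by norm_num) (by norm_num)] at this
      simpa using this
    have h4 : ∫⁻ ξ, ‖tG V h H ξ‖ₑ ^ 2 < ⊤ := by
      rw [h2]; exact ENNReal.mul_lt_top h3 measure_closedBall_lt_top
    simpa using h4

lemma spV_z (V : Submodule ℝ (En n)) (p : V × Vᗮ) : (spV V).z ((dec V).symm p) = ‖p.2‖ := by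
  change ‖Vᗮ.starProjection ((dec V).symm p)‖ = _
  rw [dec_symm, map_add, Submodule.starProjection_eq_self_iff.2 p.2.2,
    (Vᗮ.starProjection_apply_eq_zero_iff).2 (Submodule.le_orthogonal_orthogonal V p.1.2), zero_add]
  rfl

lemma tG_supp (V : Submodule ℝ (En n)) {h : ℝ} (H : V → ℂ) {ξ : En n}
    (hξ : h < (spV V).z ξ) : tG V h H ξ = 0 := by
  obtain ⟨p, rfl⟩ := (dec V).symm.surjective ξ
  rw [spV_z] at hξ
  rw [tG_symm, indicator_of_notMem, mul_zero]
  simpa using hξ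

lemma tG_PP (V : Submodule ℝ (En n)) {h : ℝ} (hh : 0 < h) (H : V → ℂ) :
    (PP (spV V) h).indicator (tG V h H) = tG V h H := by
  ext ξ
  by_cases h1 : ξ ∈ PP (spV V) h
  · rw [indicator_of_mem h1]
  · rw [indicator_of_notMem h1, tG_supp]
    by_contra hc
    push Not at hc
    refine h1 ?_
    have := (spV V).z0 ξ
    have h2 : (spV V).z ξ ^ 2 ≤ h ^ 2 := pow_le_pow_left₀ this hc 2
    have h3 : 0 ≤ h * ‖ξ‖ := by positivity
    change (spV V).z ξ ^ 2 ≤ h * (h + ‖ξ‖)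
    nlinarith

lemma WW_tG (V : Submodule ℝ (En n)) {h : ℝ} (hh : 0 < h) {H : V → ℂ} (hH : MemLp H 2 volume) :
    WW (spV V) h (tG V h H) = (∫⁻ η, ‖H η‖ₑ ^ 2) * volume (Metric.closedBall (0 : Vᗮ) h) := by
  rw [← tG_l2 V h hH, WW]
  refine lintegral_congr fun ξ => ?_
  by_cases h1 : ξ ∈ PP (spV V) h
  · rw [wt_in _ h1, one_mul]
  · rw [← tG_PP V hh H, indicator_of_notMem h1]; simp

/-- the Fourier integral of the ball -/
noncomputable def bF (V : Submodule ℝ (En n)) (h : ℝ) (w : Vᗮ) : ℂ :=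
  ∫ ζ in Metric.closedBall (0 : Vᗮ) h, eg w ζ

lemma sl_tG (V : Submodule ℝ (En n)) {h : ℝ} (H : V → ℂ) (w : Vᗮ) (η : V) :
    sl V (tG V h H) w η = H η * bF V h w := by
  rw [sl, bF, ← integral_indicator Metric.isClosed_closedBall.measurableSet, ← integral_const_mul]
  refine integral_congr_ae (Eventually.of_forall fun ζ => ?_)
  simp only
  rw [tG_symm]
  by_cases h1 : ζ ∈ Metric.closedBall (0 : Vᗮ) h
  · rw [indicator_of_mem h1, indicator_of_mem h1]; ring
  · rw [indicator_of_notMem h1, indicator_of_notMem h1]; ring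

lemma cy_tG (V : Submodule ℝ (En n)) {h : ℝ} (hh : 0 < h) {H : V → ℂ} (hH : MemLp H 2 volume)
    (R : ℝ) (u : V) (w : Vᗮ) :
    cy (spV V) h (tG V h H) R ((dec V).symm (u, w)) =
      (∫ η in Metric.closedBall (0 : V) R, eg u η * H η) * bF V h w := by
  rw [cy_slice V hh (tG_memLp V h hH), tG_PP V hh, ← integral_mul_const]
  refine integral_congr_ae (Eventually.of_forall fun η => ?_)
  simp only
  rw [sl_tG]; ring

lemma bF_ge (V : Submodule ℝ (En n)) {h : ℝ} (hh : 0 < h) {w : Vᗮ} (hw : ‖w‖ ≤ 1 / (8 * h)) :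
    volume (Metric.closedBall (0 : Vᗮ) h) ≤ 2 * ‖bF V h w‖ₑ := by
  have hfin : volume (Metric.closedBall (0 : Vᗮ) h) < ⊤ := measure_closedBall_lt_top
  have hbd : ∀ ζ : Vᗮ, ζ ∈ Metric.closedBall (0 : Vᗮ) h → (1 : ℝ) / 2 ≤ (eg w ζ).re := by
    intro ζ hζ
    have hz : ‖ζ‖ ≤ h := by simpa using hζ
    have h1 : |⟪w, ζ⟫| ≤ 1 / 8 := by
      refine (abs_real_inner_le_norm w ζ).trans ?_
      calc ‖w‖ * ‖ζ‖ ≤ (1 / (8 * h)) * h := mul_le_mul hw hz (norm_nonneg _) (by positivity)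
        _ = 1 / 8 := by field_simp
    have h2 : (eg w ζ).re = Real.cos (2 * π * ⟪w, ζ⟫) := by
      rw [eg, show 2 * (π : ℂ) * Complex.I * ((⟪w, ζ⟫ : ℝ) : ℂ) =
        ((2 * π * ⟪w, ζ⟫ : ℝ) : ℂ) * Complex.I by push_cast; ring]
      rw [Complex.exp_ofReal_mul_I_re]
    rw [h2]
    have h3 := Real.one_sub_sq_div_two_le_cos (x := 2 * π * ⟪w, ζ⟫)
    have h4 : ⟪w, ζ⟫ ^ 2 ≤ (1 / 8) ^ 2 := sq_le_sq' (abs_le.1 h1).1 (abs_le.1 h1).2
    have h5 : π < 4 := Real.pi_lt_four
    have h6 : 0 < π := Real.pi_pos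
    have h7 : (2 * π * ⟪w, ζ⟫) ^ 2 ≤ 1 := by
      have : (2 * π * ⟪w, ζ⟫) ^ 2 = (4 * π ^ 2) * ⟪w, ζ⟫ ^ 2 := by ring
      rw [this]
      have h8 : 4 * π ^ 2 ≤ 64 := by nlinarith
      calc (4 * π ^ 2) * ⟪w, ζ⟫ ^ 2 ≤ 64 * (1 / 8) ^ 2 :=
            mul_le_mul h8 h4 (sq_nonneg _) (by norm_num)
        _ = 1 := by norm_num
    linarith
  have hint : Integrable (fun ζ : Vᗮ => eg w ζ)
      (volume.restrict (Metric.closedBall (0 : Vᗮ) h)) := by
    have : IsFiniteMeasure (volume.restrict (Metric.closedBall (0 : Vᗮ) h)) := ⟨by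
      rw [Measure.restrict_apply_univ]; exact hfin⟩
    refine Integrable.of_bound ?_ 1 (Eventually.of_forall fun ζ => (eg_norm w ζ).le)
    exact (eg_cont.comp (by fun_prop : Continuous fun ζ : Vᗮ => (w, ζ))).aestronglyMeasurable
  have hre : (bF V h w).re = ∫ ζ in Metric.closedBall (0 : Vᗮ) h, (eg w ζ).re := by
    rw [bF]
    exact (integral_re hint).symm
  have hlow : (1 : ℝ) / 2 * (volume (Metric.closedBall (0 : Vᗮ) h)).toReal ≤ (bF V h w).re := by
    rw [hre]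
    have h1 : ∫ _ζ in Metric.closedBall (0 : Vᗮ) h, (1 : ℝ) / 2 ≤
        ∫ ζ in Metric.closedBall (0 : Vᗮ) h, (eg w ζ).re := by
      refine setIntegral_mono_on ?_ hint.re Metric.isClosed_closedBall.measurableSet hbd
      exact integrableOn_const hfin.ne
    rw [setIntegral_const, smul_eq_mul, measureReal_def, mul_comm] at h1
    exact h1
  have h2 : (volume (Metric.closedBall (0 : Vᗮ) h)).toReal ≤ 2 * ‖bF V h w‖ := by
    have := Complex.re_le_norm (bF V h w)
    linarith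
  rw [← ENNReal.ofReal_toReal hfin.ne]
  refine (ENNReal.ofReal_le_ofReal h2).trans (le_of_eq ?_)
  rw [ENNReal.ofReal_mul (by norm_num), ofReal_norm]
  simp

end Pool.Agent.E8helper19.SL
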