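import Mathlib
import Pool.Agent.E8helper19.SL.G

/-! The estimate near the subspace is equivalent to the estimate of Q1 for the subspace. -/

set_option autoImplicit false

open MeasureTheory Real Set Filter Topology
open scoped ENNReal NNReal RealInnerProductSpace

namespace Pool.Agent.E8helper19.SL

open Pool.Agent.Helper93.Sph

variable {m n p : ℕ}

/-- estimate for functions with frequencies in a tube around `V` -/
def Tube (V : Submodule ℝ (En n)) (A : ℝ≥0) : Prop :=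
  ∀ h : ℝ, 0 < h → ∀ G : En n → ℂ, MemLp G 2 volume →
    (∀ ξ, h < ‖Vᗮ.starProjection ξ‖ → G ξ = 0) → ∀ x₀ : En n,
    ∫⁻ x in Metric.closedBall x₀ (1 / h), ⨆ R : ℝ, ‖ps G R x‖ₑ ^ 2 ≤ A * ∫⁻ ξ, ‖G ξ‖ₑ ^ 2

lemma bF_sm (V : Submodule ℝ (En n)) (h : ℝ) : StronglyMeasurable (bF V h) := by
  have h1 : StronglyMeasurable (fun q : Vᗮ × Vᗮ => eg q.1 q.2) :=
    eg_cont.stronglyMeasurable
  exact h1.integral_prod_right'

lemma CM_le (D : Split (m + 1)) {h : ℝ} (hh : 0 < h) {G : En (m + 1) → ℂ} (hG : MemLp G 2)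
    (x : En (m + 1)) : CM D h G x ≤ 2 * ((⨆ R : ℝ, ‖ps G R x‖ₑ ^ 2) + NN D h G x) := by
  rw [CM]
  refine iSup_le fun M => ?_
  have hfl : ⌊h * (M : ℝ) / h⌋₊ = M := by
    rw [mul_div_cancel_left₀ _ hh.ne', Nat.floor_natCast]
  have h1 := NN_le D hh hG x (R := h * M) (by positivity)
  rw [hfl] at h1
  have e : cy D h G (h * M) x = ps G (h * M) x + -(ps G (h * M) x - cy D h G (h * M) x) := by ring
  rw [e]
  refine (enorm_add_sq_le _ _).trans (mul_le_mul_right (add_le_add ?_ ?_) _)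
  · exact le_iSup (fun R : ℝ => ‖ps G R x‖ₑ ^ 2) (h * M)
  · rw [enorm_neg]; exact h1

/-- maximal function along multiples of `h` on the subspace -/
noncomputable def MV (V : Submodule ℝ (En n)) (h : ℝ) (H : V → ℂ) (u : V) : ℝ≥0∞ :=
  ⨆ M : ℕ, ‖∫ η in Metric.closedBall (0 : V) (h * M), eg u η * H η‖ₑ ^ 2

lemma prod_low (V : Submodule ℝ (En n)) {h : ℝ} (hh : 0 < h) {H : V → ℂ} (hH : MemLp H 2 volume)
    (hm : Measurable (MV V h H)) :
    (∫⁻ u in Metric.closedBall (0 : V) (1 / (2 * h)), MV V h H u) *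
      (∫⁻ w in Metric.closedBall (0 : Vᗮ) (1 / (8 * h)), ‖bF V h w‖ₑ ^ 2) ≤
      ∫⁻ x in Metric.closedBall (0 : En n) (1 / h), CM (spV V) h (tG V h H) x := by
  rw [← lintegral_indicator Metric.isClosed_closedBall.measurableSet,
    ← lintegral_indicator Metric.isClosed_closedBall.measurableSet,
    ← lintegral_indicator Metric.isClosed_closedBall.measurableSet,
    ← (dec_mp V).symm.lintegral_comp_emb (dec V).symm.measurableEmbedding,
    Measure.volume_eq_prod, ← lintegral_prod_mul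
      (hm.indicator Metric.isClosed_closedBall.measurableSet).aemeasurable
      (((bF_sm V h).measurable.enorm.pow_const 2).indicator
        Metric.isClosed_closedBall.measurableSet).aemeasurable]
  refine lintegral_mono fun q => ?_
  obtain ⟨u, w⟩ := q
  simp only
  by_cases hu : u ∈ Metric.closedBall (0 : V) (1 / (2 * h))
  · by_cases hw : w ∈ Metric.closedBall (0 : Vᗮ) (1 / (8 * h))
    · have hx : (dec V).symm (u, w) ∈ Metric.closedBall (0 : En n) (1 / h) := by
        rw [dec_symm]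
        simp only [Metric.mem_closedBall, dist_zero_right] at hu hw ⊢
        refine (norm_add_le _ _).trans ?_
        have h1 : ‖(u : En n)‖ ≤ 1 / (2 * h) := hu
        have h2 : ‖(w : En n)‖ ≤ 1 / (8 * h) := hw
        have h3 : 1 / (2 * h) + 1 / (8 * h) ≤ 1 / h := by
          rw [div_add_div _ _ (by positivity) (by positivity), div_le_div_iff₀ (by positivity)
            (by positivity)]
          nlinarith [sq_nonneg h]
        linarith
      rw [indicator_of_mem hu, indicator_of_mem hw, indicator_of_mem hx, MV, CM,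
        ENNReal.iSup_mul]
      refine iSup_le fun M => ?_
      refine le_trans (le_of_eq ?_) (le_iSup (fun M : ℕ =>
        ‖cy (spV V) h (tG V h H) (h * M) ((dec V).symm (u, w))‖ₑ ^ 2) M)
      rw [cy_tG V hh hH, enorm_mul, mul_pow]
    · rw [indicator_of_notMem hw, mul_zero]; exact zero_le
  · rw [indicator_of_notMem hu, zero_mul]; exact zero_le

lemma MV_eq {V : Submodule ℝ (En n)} (b : OrthonormalBasis (Fin (p + 1)) ℝ V) (h : ℝ)
    (H' : En (p + 1) → ℂ) (u : V) :
    MV V h (fun η => H' (b.repr η)) u = ⨆ M : ℕ, ‖ps H' (h * M) (b.repr u)‖ₑ ^ 2 := by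
  rw [MV]
  simp_rw [tr b H']

lemma MV_meas {V : Submodule ℝ (En n)} (b : OrthonormalBasis (Fin (p + 1)) ℝ V) (h : ℝ)
    {H' : En (p + 1) → ℂ} (hH' : MemLp H' 2 volume) :
    Measurable (MV V h (fun η => H' (b.repr η))) := by
  have : MV V h (fun η => H' (b.repr η)) = fun u => ⨆ M : ℕ, ‖ps H' (h * M) (b.repr u)‖ₑ ^ 2 :=
    funext fun u => MV_eq b h H' u
  rw [this]
  refine Measurable.iSup fun M => ?_
  exact (((ps_cont_x hH' _).comp b.repr.continuous).measurable.enorm.pow_const 2)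

/-- the constant of the volumes -/
noncomputable def kap (V : Submodule ℝ (En n)) : ℝ≥0∞ :=
  ENNReal.ofReal ((1 / 8) ^ Module.finrank ℝ Vᗮ) *
    (volume (Metric.closedBall (0 : Vᗮ) 1) * volume (Metric.closedBall (0 : Vᗮ) 1))

lemma kap_ne_zero (V : Submodule ℝ (En n)) : kap V ≠ 0 := by
  have h1 : volume (Metric.closedBall (0 : Vᗮ) 1) ≠ 0 :=
    (Metric.measure_closedBall_pos _ _ one_pos).ne'
  rw [kap]
  refine mul_ne_zero ?_ (mul_ne_zero h1 h1)
  simp

lemma kap_ne_top (V : Submodule ℝ (En n)) : kap V ≠ ⊤ := by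
  have h1 : volume (Metric.closedBall (0 : Vᗮ) 1) ≠ ⊤ := measure_closedBall_lt_top.ne
  exact ENNReal.mul_ne_top ENNReal.ofReal_ne_top (ENNReal.mul_ne_top h1 h1)

lemma vol_mul (V : Submodule ℝ (En n)) {h : ℝ} (hh : 0 < h) :
    volume (Metric.closedBall (0 : Vᗮ) h) * volume (Metric.closedBall (0 : Vᗮ) (1 / (8 * h))) =
      kap V := by
  rw [Measure.addHaar_closedBall' volume (0 : Vᗮ) hh.le,
    Measure.addHaar_closedBall' volume (0 : Vᗮ) (show 0 ≤ 1 / (8 * h) by positivity), kap]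
  have : ENNReal.ofReal ((1 / 8) ^ Module.finrank ℝ Vᗮ) =
      ENNReal.ofReal (h ^ Module.finrank ℝ Vᗮ) *
        ENNReal.ofReal ((1 / (8 * h)) ^ Module.finrank ℝ Vᗮ) := by
    rw [← ENNReal.ofReal_mul (by positivity), ← mul_pow]
    congr 2
    field_simp
  rw [this]; ring

lemma step_h {V : Submodule ℝ (En (m + 1))} (b : OrthonormalBasis (Fin (p + 1)) ℝ V) {A : ℝ≥0}
    (hA : Tube V A) {H' : En (p + 1) → ℂ} (hH' : MemLp H' 2 volume) {h : ℝ} (hh : 0 < h) :
    ∫⁻ y in Metric.closedBall (0 : En (p + 1)) (1 / (2 * h)), ⨆ M : ℕ, ‖ps H' (h * M) y‖ₑ ^ 2 ≤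
      (8 * (A + ENNReal.ofReal ((1000 * (m + 1) * √(m + 1)) * 2)) / kap V) *
        ∫⁻ η, ‖H' η‖ₑ ^ 2 := by
  set H : V → ℂ := fun η => H' (b.repr η) with hHdef
  have hH : MemLp H 2 volume := hH'.comp_measurePreserving b.measurePreserving_repr
  set X := ∫⁻ η, ‖H' η‖ₑ ^ 2 with hX
  have hXV : ∫⁻ η : V, ‖H η‖ₑ ^ 2 = X := by
    rw [hX, ← b.measurePreserving_repr.lintegral_comp_emb (repr_emb b)]
  have hI : ∫⁻ y in Metric.closedBall (0 : En (p + 1)) (1 / (2 * h)),
      ⨆ M : ℕ, ‖ps H' (h * M) y‖ₑ ^ 2 =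
      ∫⁻ u in Metric.closedBall (0 : V) (1 / (2 * h)), MV V h H u := by
    have h1 : Metric.closedBall (0 : V) (1 / (2 * h)) =
        b.repr ⁻¹' (Metric.closedBall (0 : En (p + 1)) (1 / (2 * h))) := by
      ext η; simp
    rw [h1, ← b.measurePreserving_repr.setLIntegral_comp_preimage_emb (repr_emb b)]
    refine lintegral_congr fun u => ?_
    rw [MV_eq]
  set B := volume (Metric.closedBall (0 : Vᗮ) h) with hB
  set B8 := volume (Metric.closedBall (0 : Vᗮ) (1 / (8 * h))) with hB8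
  have hB0 : B ≠ 0 := (Metric.measure_closedBall_pos _ _ hh).ne'
  have hBt : B ≠ ⊤ := measure_closedBall_lt_top.ne
  have hlow : B ^ 2 * B8 ≤ 4 * ∫⁻ w in Metric.closedBall (0 : Vᗮ) (1 / (8 * h)),
      ‖bF V h w‖ₑ ^ 2 := by
    rw [← lintegral_const_mul' _ _ (by simp), hB8, ← setLIntegral_const]
    refine setLIntegral_mono' Metric.isClosed_closedBall.measurableSet fun w hw => ?_
    have h1 := bF_ge V hh (w := w) (by simpa using hw)
    calc B ^ 2 ≤ (2 * ‖bF V h w‖ₑ) ^ 2 := pow_le_pow_left₀ zero_le h1 2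
      _ = _ := by ring
  have hup : ∫⁻ x in Metric.closedBall (0 : En (m + 1)) (1 / h), CM (spV V) h (tG V h H) x ≤
      2 * (A + ENNReal.ofReal ((1000 * (m + 1) * √(m + 1)) * 2)) * (X * B) := by
    have hGL := tG_memLp V h hH
    refine (lintegral_mono fun x => CM_le (spV V) hh hGL x).trans ?_
    rw [lintegral_const_mul' _ _ (by simp), lintegral_add_right _ (NN_meas (spV V) hh hGL),
      mul_assoc, add_mul]
    refine mul_le_mul_right (add_le_add ?_ ?_) _
    · refine (hA h hh _ hGL (fun ξ hξ => tG_supp V H hξ) 0).trans (le_of_eq ?_)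
      rw [tG_l2 V h hH, hXV]
    · refine (NN_int (spV V) hh hGL 0 (show 0 < 1 / h by positivity)).trans (le_of_eq ?_)
      rw [WW_tG V hh hH, hXV]
      congr 3
      have : h * (1 / h) = 1 := by field_simp
      rw [this]; norm_num
  set I := ∫⁻ u in Metric.closedBall (0 : V) (1 / (2 * h)), MV V h H u with hIdef
  set K := A + ENNReal.ofReal ((1000 * (m + 1) * √(m + 1)) * 2) with hK
  have h1 := prod_low V hh hH (MV_meas b h hH')
  have h2 : I * (B ^ 2 * B8) ≤ 4 * (2 * K * (X * B)) := by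
    calc I * (B ^ 2 * B8) ≤ I * (4 * ∫⁻ w in Metric.closedBall (0 : Vᗮ) (1 / (8 * h)),
          ‖bF V h w‖ₑ ^ 2) := mul_le_mul_right hlow _
      _ = 4 * (I * ∫⁻ w in Metric.closedBall (0 : Vᗮ) (1 / (8 * h)), ‖bF V h w‖ₑ ^ 2) := by ring
      _ ≤ 4 * (2 * K * (X * B)) := mul_le_mul_right (h1.trans hup) _
  have h3 : B * (I * kap V) ≤ B * (8 * K * X) := by
    rw [← vol_mul V hh]
    calc B * (I * (B * B8)) = I * (B ^ 2 * B8) := by ring
      _ ≤ 4 * (2 * K * (X * B)) := h2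
      _ = _ := by ring
  have h4 : I * kap V ≤ 8 * K * X := (ENNReal.mul_le_mul_iff_right hB0 hBt).1 h3
  rw [hI]
  rw [ENNReal.mul_comm_div, ← mul_div_assoc,
    ENNReal.le_div_iff_mul_le (Or.inl (kap_ne_zero V)) (Or.inl (kap_ne_top V))]
  refine h4.trans (le_of_eq ?_)
  ring

theorem tube_QE {V : Submodule ℝ (En (m + 1))} (b : OrthonormalBasis (Fin (p + 1)) ℝ V) {A : ℝ≥0}
    (hA : Tube V A) : ∃ A' : ℝ≥0, QE (p + 1) A' := by
  set A1 : ℝ≥0∞ := 8 * (A + ENNReal.ofReal ((1000 * (m + 1) * √(m + 1)) * 2)) / kap V with hA1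
  set A2 : ℝ≥0∞ := 2 * (A1 + ENNReal.ofReal (5 * (p + 1) * √(p + 1))) with hA2
  have hA1t : A1 ≠ ⊤ := by
    refine ENNReal.div_ne_top (ENNReal.mul_ne_top (by simp) ?_) (kap_ne_zero V)
    exact ENNReal.add_ne_top.2 ⟨by simp, ENNReal.ofReal_ne_top⟩
  have hA2t : A2 ≠ ⊤ :=
    ENNReal.mul_ne_top (by simp) (ENNReal.add_ne_top.2 ⟨hA1t, ENNReal.ofReal_ne_top⟩)
  refine ⟨A2.toNNReal, fun H' hH' => ?_⟩
  rw [ENNReal.coe_toNNReal hA2t]
  set X := ∫⁻ η, ‖H' η‖ₑ ^ 2 with hX
  have hball : ∀ j : ℕ, ∫⁻ y in Metric.closedBall (0 : En (p + 1)) ((j : ℝ) + 1),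
      ⨆ R : ℝ, ‖ps H' R y‖ₑ ^ 2 ≤ A2 * X := by
    intro j
    set h : ℝ := 1 / (2 * ((j : ℝ) + 1)) with hhdef
    have hh : 0 < h := by positivity
    have hj : 1 / (2 * h) = (j : ℝ) + 1 := by rw [hhdef]; field_simp
    have h1 : ∀ y, ⨆ R : ℝ, ‖ps H' R y‖ₑ ^ 2 ≤
        2 * ((⨆ M : ℕ, ‖ps H' (h * M) y‖ₑ ^ 2) + ENNReal.ofReal h * energy H' y) := by
      intro y
      refine iSup_le fun R => ?_
      rcases lt_or_ge R 0 with hR | hR
      · rw [ps_neg _ hR]; simp
      set M := ⌊R / h⌋₊ with hM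
      have a1 : (M : ℝ) ≤ R / h := Nat.floor_le (by positivity)
      have a2 : R / h < (M : ℝ) + 1 := Nat.lt_floor_add_one _
      rw [le_div_iff₀ hh] at a1
      rw [div_lt_iff₀ hh] at a2
      have b1 : h * M ≤ R := by linarith
      have e : ps H' R y = ps H' (h * M) y + (ps H' R y - ps H' (h * M) y) := by ring
      rw [e]
      refine (enorm_add_sq_le _ _).trans (mul_le_mul_right (add_le_add ?_ ?_) _)
      · exact le_iSup (fun M : ℕ => ‖ps H' (h * M) y‖ₑ ^ 2) M
      · refine (sub_le_energy hH' y (by positivity) b1).trans ?_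
        exact mul_le_mul_left (ENNReal.ofReal_le_ofReal (by linarith)) _
    refine (lintegral_mono h1).trans ?_
    rw [lintegral_const_mul' _ _ (by simp), lintegral_add_right _ ((energy_meas hH').const_mul _),
      lintegral_const_mul' _ _ ENNReal.ofReal_ne_top, hA2, mul_assoc, add_mul]
    refine mul_le_mul_right (add_le_add ?_ ?_) _
    · have := step_h b hA hH' hh
      rw [hj] at this
      exact this
    · have h2 := energy_bound hH' (0 : En (p + 1)) (ρ := (j : ℝ) + 1) (by positivity)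
      refine (mul_le_mul_right h2 _).trans (le_of_eq ?_)
      rw [← mul_assoc, ← ENNReal.ofReal_mul hh.le]
      congr 2
      rw [hhdef]; field_simp; ring
  have hun : (⋃ j : ℕ, Metric.closedBall (0 : En (p + 1)) ((j : ℝ) + 1)) = univ := by
    refine eq_univ_of_forall fun y => ?_
    obtain ⟨j, hj⟩ := exists_nat_ge ‖y‖
    exact mem_iUnion.2 ⟨j, by simp; linarith⟩
  rw [← setLIntegral_univ, ← hun, setLIntegral_iUnion_of_directed]
  · exact iSup_le hball
  · refine Monotone.directed_le fun i j hij => ?_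
    exact Metric.closedBall_subset_closedBall (by
      have : (i : ℝ) ≤ j := by exact_mod_cast hij
      linarith)

end Pool.Agent.E8helper19.SL
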