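import Mathlib
import Pool.Agent.E8helper19.SL.H

/-! The estimate of Q1 for Schwartz functions is equivalent to the one for all `L²` functions. -/

set_option autoImplicit false

open MeasureTheory Real Set Filter Topology
open scoped ENNReal NNReal RealInnerProductSpace FourierTransform SchwartzMap ContDiff

namespace Pool.Agent.E8helper19.SL

open Pool.Agent.Helper93.Sph

variable {m n p k : ℕ}

/-- the Fourier transform -/
noncomputable def hat (f : En k → ℂ) (ξ : En k) : ℂ :=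
  ∫ x, Complex.exp (-(2 * π * Complex.I * ((⟪x, ξ⟫ : ℝ) : ℂ))) * f x

lemma hat_eq (f : En k → ℂ) : hat f = 𝓕 f := by
  ext ξ
  rw [hat, Real.fourier_eq']
  refine integral_congr_ae (Eventually.of_forall fun x => ?_)
  simp only [smul_eq_mul]
  congr 2
  push_cast
  ring

lemma Fi_eq (f : En k → ℂ) : Fi f = 𝓕⁻ f := by
  ext ξ
  rw [Fi, Real.fourierInv_eq']
  refine integral_congr_ae (Eventually.of_forall fun x => ?_)
  simp only [smul_eq_mul, ek]
  rw [real_inner_comm]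
  congr 2
  push_cast
  ring

/-- the estimate of Q1 for Schwartz functions -/
def QEs (k : ℕ) (A : ℝ≥0) : Prop :=
  ∀ f : 𝓢(En k, ℂ), ∫⁻ u : En k, ⨆ R : ℝ, ‖ps (hat f) R u‖ₑ ^ 2 ≤ A * ∫⁻ x, ‖f x‖ₑ ^ 2

lemma hat_l2 (f : 𝓢(En k, ℂ)) : ∫⁻ ξ, ‖hat f ξ‖ₑ ^ 2 ≤ ∫⁻ x, ‖f x‖ₑ ^ 2 := by
  have h1 : ∀ ξ, hat f ξ = Fi f (-ξ) := by
    intro ξ
    rw [hat_eq, Fi_eq, Real.fourierInv_eq_fourier_neg, neg_neg]
  simp_rw [h1]
  rw [lintegral_neg_eq_self (fun ξ => ‖Fi f ξ‖ₑ ^ 2)]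
  exact bessel f.integrable

lemma hat_memLp (f : 𝓢(En k, ℂ)) : MemLp (hat f) 2 volume := by
  rw [hat_eq, ← SchwartzMap.fourier_coe]
  exact (𝓕 f).memLp 2 volume

lemma QE_QEs {A : ℝ≥0} (hA : QE k A) : QEs k A := fun f =>
  (hA _ (hat_memLp f)).trans (mul_le_mul_right (hat_l2 f) _)

lemma l2_eq (F : En k → ℂ) : ∫⁻ ξ, ‖F ξ‖ₑ ^ 2 = eLpNorm F 2 volume ^ 2 := by
  have h := eLpNorm_nnreal_pow_eq_lintegral (f := F) (μ := (volume : Measure (En k))) (p := 2)
    (by norm_num)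
  have h2 : ((2 : ℝ≥0) : ℝ) = ((2 : ℕ) : ℝ) := by norm_num
  rw [h2] at h
  simp only [ENNReal.rpow_natCast] at h
  rw [← h]
  rfl

lemma ps_diff {F G : En (p + 1) → ℂ} (hF : MemLp F 2) (hG : MemLp G 2) (R : ℝ)
    (x : En (p + 1)) :
    ‖ps F R x - ps G R x‖ₑ ^ 2 ≤ volume (shell (p + 1) 0 R) * eLpNorm (F - G) 2 volume ^ 2 := by
  have e : ps F R x - ps G R x = Fi ((shell (p + 1) 0 R).indicator (F - G)) x := by
    rw [ps_eq, ps_eq, Fi, Fi, Fi, ← integral_sub (ek_int (ind_int hF _ _) x)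
      (ek_int (ind_int hG _ _) x)]
    refine integral_congr_ae (Eventually.of_forall fun ξ => ?_)
    simp only
    by_cases h : ξ ∈ shell (p + 1) 0 R
    · rw [indicator_of_mem h, indicator_of_mem h, indicator_of_mem h, Pi.sub_apply]; ring
    · rw [indicator_of_notMem h, indicator_of_notMem h, indicator_of_notMem h]; ring
  rw [e]
  refine (piece_pt (hF.sub hG) (shell_meas _ _ _) x).trans (mul_le_mul_right ?_ _)
  rw [← l2_eq]
  exact setLIntegral_le_lintegral _ _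

lemma lsc_meas {F : En (p + 1) → ℂ} (hF : MemLp F 2) :
    Measurable (fun u => ⨆ R : ℝ, ‖ps F R u‖ₑ ^ 2) := by
  refine LowerSemicontinuous.measurable ?_
  refine lowerSemicontinuous_iSup fun R => Continuous.lowerSemicontinuous ?_
  exact (ENNReal.continuous_pow 2).comp (ps_cont_x hF R).enorm

theorem QEs_QE {A : ℝ≥0} (hA : QEs (p + 1) A) : QE (p + 1) A := by
  intro H hH
  have hex : ∀ j : ℕ, ∃ g : 𝓢(En (p + 1), ℂ),
      eLpNorm (H - (g : En (p + 1) → ℂ)) 2 volume ≤ ENNReal.ofReal (1 / ((j : ℝ) + 1)) := by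
    intro j
    obtain ⟨g, hg1, hg2, hg3⟩ := hH.exist_eLpNorm_sub_le (by norm_num) (by norm_num)
      (show (0 : ℝ) < 1 / ((j : ℝ) + 1) by positivity)
    exact ⟨hg1.toSchwartzMap hg2, hg3⟩
  choose g hg using hex
  have heps : Tendsto (fun j : ℕ => ENNReal.ofReal (1 / ((j : ℝ) + 1))) atTop (𝓝 0) := by
    have := ENNReal.tendsto_ofReal (tendsto_one_div_add_atTop_nhds_zero_nat (𝕜 := ℝ))
    simpa using this
  have hgL : ∀ j, MemLp (g j : En (p + 1) → ℂ) 2 volume := fun j => (g j).memLp 2 volume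
  -- the bound for the approximations
  have hb : ∀ j, ∫⁻ u, ⨆ R : ℝ, ‖ps (g j) R u‖ₑ ^ 2 ≤ A * ∫⁻ ξ, ‖g j ξ‖ₑ ^ 2 := by
    intro j
    have h1 := hA (𝓕⁻ (g j))
    have h2 : hat (𝓕⁻ (g j) : 𝓢(En (p + 1), ℂ)) = (g j : En (p + 1) → ℂ) := by
      rw [hat_eq, ← SchwartzMap.fourier_coe, FourierTransform.fourier_fourierInv_eq]
    rw [h2] at h1
    refine h1.trans (mul_le_mul_right ?_ _)
    have h3 : ((𝓕⁻ (g j) : 𝓢(En (p + 1), ℂ)) : En (p + 1) → ℂ) = Fi (g j) := by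
      rw [Fi_eq, SchwartzMap.fourierInv_coe]
    rw [h3]
    exact bessel (g j).integrable
  -- pointwise limit
  have hpt : ∀ u, ⨆ R : ℝ, ‖ps H R u‖ₑ ^ 2 ≤
      liminf (fun j => ⨆ R : ℝ, ‖ps (g j) R u‖ₑ ^ 2) atTop := by
    intro u
    refine iSup_le fun R => ?_
    have h1 : Tendsto (fun j => ‖ps (g j) R u - ps H R u‖ₑ ^ 2) atTop (𝓝 0) := by
      have h2 : Tendsto (fun j : ℕ => volume (shell (p + 1) 0 R) *
          ENNReal.ofReal (1 / ((j : ℝ) + 1)) ^ 2) atTop (𝓝 0) := by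
        have h3 := ENNReal.Tendsto.const_mul (a := volume (shell (p + 1) 0 R))
          (ENNReal.Tendsto.pow (n := 2) heps) (Or.inr (shell_finite _ _ _).ne)
        simpa using h3
      refine tendsto_of_tendsto_of_tendsto_of_le_of_le tendsto_const_nhds h2
        (fun _ => zero_le) fun j => ?_
      refine (ps_diff (hgL j) hH R u).trans (mul_le_mul_right ?_ _)
      refine pow_le_pow_left₀ zero_le ?_ 2
      rw [eLpNorm_sub_comm]
      exact hg j
    have h4 : Tendsto (fun j => ‖ps (g j) R u - ps H R u‖ₑ) atTop (𝓝 0) := by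
      have h5 := (ENNReal.continuous_rpow_const (y := 1 / 2)).tendsto 0 |>.comp h1
      simp only [Function.comp_def] at h5
      rw [ENNReal.zero_rpow_of_pos (by norm_num)] at h5
      refine h5.congr fun j => ?_
      rw [← ENNReal.rpow_natCast, ← ENNReal.rpow_mul]
      norm_num
    have h6 : Tendsto (fun j => ps (g j) R u) atTop (𝓝 (ps H R u)) := by
      rw [tendsto_iff_edist_tendsto_0]
      refine h4.congr fun j => ?_
      rw [edist_eq_enorm_sub]
    have h7 : Tendsto (fun j => ‖ps (g j) R u‖ₑ ^ 2) atTop (𝓝 (‖ps H R u‖ₑ ^ 2)) :=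
      ENNReal.Tendsto.pow h6.enorm
    rw [← h7.liminf_eq]
    exact liminf_le_liminf (Eventually.of_forall fun j =>
      le_iSup (fun R : ℝ => ‖ps (g j) R u‖ₑ ^ 2) R)
  refine (lintegral_mono hpt).trans ((lintegral_liminf_le fun j => lsc_meas (hgL j)).trans ?_)
  -- limit of the right hand sides
  have hlim : Tendsto (fun j : ℕ => (A : ℝ≥0∞) *
      (eLpNorm H 2 volume + ENNReal.ofReal (1 / ((j : ℝ) + 1))) ^ 2) atTop
      (𝓝 (A * ∫⁻ η, ‖H η‖ₑ ^ 2)) := by
    rw [l2_eq]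
    have h1 : Tendsto (fun j : ℕ => eLpNorm H 2 volume + ENNReal.ofReal (1 / ((j : ℝ) + 1))) atTop
        (𝓝 (eLpNorm H 2 volume)) := by
      have := tendsto_const_nhds (x := eLpNorm H 2 volume) |>.add heps
      simpa using this
    exact ENNReal.Tendsto.const_mul (ENNReal.Tendsto.pow h1) (Or.inr ENNReal.coe_ne_top)
  rw [← hlim.liminf_eq]
  refine liminf_le_liminf (Eventually.of_forall fun j => (hb j).trans (mul_le_mul_right ?_ _))
  rw [l2_eq]
  refine pow_le_pow_left₀ zero_le ?_ 2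
  have h1 : (g j : En (p + 1) → ℂ) = H + ((g j : En (p + 1) → ℂ) - H) := by abel
  calc eLpNorm (g j : En (p + 1) → ℂ) 2 volume
      = eLpNorm (H + ((g j : En (p + 1) → ℂ) - H)) 2 volume := by rw [← h1]
    _ ≤ eLpNorm H 2 volume + eLpNorm ((g j : En (p + 1) → ℂ) - H) 2 volume :=
        eLpNorm_add_le hH.aestronglyMeasurable ((hgL j).sub hH).aestronglyMeasurable (by norm_num)
    _ ≤ _ := by
        refine add_le_add le_rfl ?_
        rw [eLpNorm_sub_comm]
        exact hg j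

end Pool.Agent.E8helper19.SL
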